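import Mathlib
import Pool.Agent.J4.H33.GL.Mom

set_option autoImplicit false

/-! # Moments of sums of products of quadratic characters over windows of consecutive primes -/

namespace Pool.Agent.J4.H33.UL

open Finset Pool.Agent.J4.H33.LIL Pool.Agent.J4.H33.GL

noncomputable section

/-- the product of the characters over a window -/
def win (J : Finset ℕ) (D : ℤ) (k : ℕ) : ℝ := ∏ i ∈ J, chi (k + i) D

lemma abs_win_le (J : Finset ℕ) (D : ℤ) (k : ℕ) : |win J D k| ≤ 1 := by
  unfold win
  rw [abs_prod]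
  exact prod_le_one (fun _ _ => abs_nonneg _) fun i _ => abs_chi_le (k + i) D

lemma mean_split (n : ℕ) (F : ℤ → ℤ → ℝ) :
    mean (mod (n + 1)) (fun D => F (D % ((∏ k ∈ range n, pr k : ℕ) : ℤ)) (D % (pr n : ℤ))) =
      mean (mod n) (fun a => mean (res (pr n)) (fun b => F a b)) := by
  have hco : (∏ k ∈ range n, pr k).Coprime (pr n) := by
    refine Nat.Coprime.prod_left fun k hk => ?_
    rw [Nat.coprime_primes (pr_prime k) (pr_prime n)]
    intro h
    have := pr_inj h
    have := mem_range.1 hk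
    omega
  unfold mean GL.mod
  rw [prod_range_succ, sum_crt_g hco (GL.prod_pos _) (pr_prime n).pos F]
  simp only [card_res]
  rw [← sum_div, div_div]
  congr 1
  push_cast
  ring

lemma chi_period (n k : ℕ) (hk : k < n) (D : ℤ) : chi k (D % ((∏ k ∈ range n, pr k : ℕ) : ℤ)) = chi k D := by
  rw [← chi_mod k D, ← chi_mod k (D % ((∏ k ∈ range n, pr k : ℕ) : ℤ))]
  congr 1
  exact Int.emod_emod_of_dvd D (by exact_mod_cast dvd_prod_of_mem _ (mem_range.2 hk))

lemma inner (n : ℕ) (l W : ℝ) (hW : |W| ≤ 1) :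
    mean (res (pr n)) (fun b => Real.exp (l * (W * chi n b))) ≤ Real.exp (l ^ 2 / 2) := by
  by_cases hn : n = 0
  · subst hn
    have h1 : ∀ b ∈ res (pr 0), Real.exp (l * (W * chi 0 b)) = 1 := by
      intro b _
      unfold chi
      simp
    rw [mean_congr h1, mean_one ⟨0, mem_res.2 ⟨le_rfl, by exact_mod_cast (pr_prime 0).pos⟩⟩]
    apply Real.one_le_exp
    positivity
  · rw [mean_chi hn (fun x => Real.exp (l * (W * x)))]
    have hp : (1 : ℝ) < (pr n : ℝ) := by exact_mod_cast (pr_prime n).one_lt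
    have e1 : (Real.exp (l * (W * 1)) + Real.exp (l * (W * (-1)))) / 2 = Real.cosh (l * W) := by
      rw [Real.cosh_eq]; congr 2
      · ring_nf
      · ring_nf
    rw [e1, mul_zero, mul_zero, Real.exp_zero, mul_one]
    have h3 := Real.one_le_cosh (l * W)
    have h4 := Real.cosh_le_exp_half_sq (l * W)
    have h5 : 0 < 1 / (pr n : ℝ) := by positivity
    have h6 : Real.exp ((l * W) ^ 2 / 2) ≤ Real.exp (l ^ 2 / 2) := by
      apply Real.exp_le_exp.2
      have h7 : W ^ 2 ≤ 1 := by
        have := abs_le.1 hW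
        nlinarith
      have := sq_nonneg l
      rw [mul_pow]
      nlinarith
    have h8 : 1 / (pr n : ℝ) + (1 - 1 / (pr n : ℝ)) * Real.cosh (l * W) ≤ Real.cosh (l * W) := by nlinarith
    exact h8.trans (h4.trans h6)

lemma mean_mono {Ω : Finset ℤ} {F G : ℤ → ℝ} (h : ∀ D ∈ Ω, F D ≤ G D) : mean Ω F ≤ mean Ω G := by
  unfold mean
  exact div_le_div_of_nonneg_right (sum_le_sum h) (Nat.cast_nonneg _)

/-- exponential moments of the model -/
lemma exp_win (J : Finset ℕ) (t : ℕ) (ht : t ∈ J) (hJ : ∀ i ∈ J, i ≤ t) (Q : Finset ℕ) (l : ℝ) : ∀ N : ℕ,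
    mean (mod (N + t)) (fun D => Real.exp (l * ∑ k ∈ Q.filter (fun k => k < N), win J D k)) ≤
      Real.exp (l ^ 2 * (Q.filter (fun k => k < N)).card / 2) := by
  classical
  intro N
  induction N with
  | zero =>
    simp only [not_lt_zero, filter_false, sum_empty, mul_zero, Real.exp_zero, card_empty, Nat.cast_zero, zero_div]
    rw [mean_one (mod_nonempty _)]
  | succ N ih =>
    set n := N + t with hn
    have hn1 : N + 1 + t = n + 1 := by omega
    rw [hn1]
    set P : ℤ := ((∏ k ∈ range n, pr k : ℕ) : ℤ) with hP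
    -- the previous sum has period P
    have hper : ∀ D : ℤ, ∑ k ∈ Q.filter (fun k => k < N), win J (D % P) k = ∑ k ∈ Q.filter (fun k => k < N), win J D k := by
      intro D
      refine sum_congr rfl fun k hk => ?_
      unfold win
      refine prod_congr rfl fun i hi => ?_
      have h1 := (mem_filter.1 hk).2
      have h2 := hJ i hi
      exact chi_period n (k + i) (by omega) D
    by_cases hN : N ∈ Q
    · have hQ : Q.filter (fun k => k < N + 1) = insert N (Q.filter (fun k => k < N)) := by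
        ext k
        simp only [mem_filter, mem_insert]
        constructor
        · rintro ⟨h1, h2⟩
          by_cases h : k = N
          · exact Or.inl h
          · exact Or.inr ⟨h1, by omega⟩
        · rintro (h | ⟨h1, h2⟩)
          · subst h; exact ⟨hN, by omega⟩
          · exact ⟨h1, by omega⟩
      have hnot : N ∉ Q.filter (fun k => k < N) := by simp
      rw [hQ, card_insert_of_notMem hnot]
      set W : ℤ → ℝ := fun D => ∏ i ∈ J.erase t, chi (N + i) D with hW
      have hWper : ∀ D : ℤ, W (D % P) = W D := by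
        intro D
        rw [hW]
        refine prod_congr rfl fun i hi => ?_
        have h1 := hJ i (mem_of_mem_erase hi)
        have h2 := ne_of_mem_erase hi
        exact chi_period n (N + i) (by omega) D
      have hW1 : ∀ D : ℤ, |W D| ≤ 1 := by
        intro D
        rw [hW]
        simp only [abs_prod]
        exact prod_le_one (fun _ _ => abs_nonneg _) fun i _ => abs_chi_le _ D
      have h1 : ∀ D ∈ mod (n + 1), Real.exp (l * ∑ k ∈ insert N (Q.filter (fun k => k < N)), win J D k) =
          (fun a b : ℤ => Real.exp (l * ∑ k ∈ Q.filter (fun k => k < N), win J a k) * Real.exp (l * (W a * chi n b)))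
            (D % P) (D % (pr n : ℤ)) := by
        intro D _
        rw [sum_insert hnot]
        show _ = Real.exp (l * ∑ k ∈ Q.filter (fun k => k < N), win J (D % P) k) *
          Real.exp (l * (W (D % P) * chi n (D % (pr n : ℤ))))
        rw [hper, hWper, chi_mod, ← Real.exp_add]
        congr 1
        have h2 : win J D N = W D * chi n D := by
          unfold win
          rw [← mul_prod_erase _ _ ht, mul_comm]
        rw [h2]
        ring
      rw [mean_congr h1, mean_split n (fun a b : ℤ => Real.exp (l * ∑ k ∈ Q.filter (fun k => k < N), win J a k) *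
        Real.exp (l * (W a * chi n b)))]
      have h2 : ∀ a ∈ mod n, mean (res (pr n)) (fun b => Real.exp (l * ∑ k ∈ Q.filter (fun k => k < N), win J a k) *
          Real.exp (l * (W a * chi n b))) ≤ Real.exp (l ^ 2 / 2) * Real.exp (l * ∑ k ∈ Q.filter (fun k => k < N), win J a k) := by
        intro a _
        rw [mean_const_mul, mul_comm]
        exact mul_le_mul_of_nonneg_right (inner n l (W a) (hW1 a)) (Real.exp_pos _).le
      refine (mean_mono h2).trans ?_
      rw [mean_const_mul]
      refine (mul_le_mul_of_nonneg_left ih (Real.exp_pos _).le).trans ?_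
      rw [← Real.exp_add]
      apply le_of_eq
      congr 1
      push_cast
      ring
    · have hQ : Q.filter (fun k => k < N + 1) = Q.filter (fun k => k < N) := by
        ext k
        simp only [mem_filter]
        constructor
        · rintro ⟨h1, h2⟩
          have : k ≠ N := fun h => hN (h ▸ h1)
          exact ⟨h1, by omega⟩
        · rintro ⟨h1, h2⟩
          exact ⟨h1, by omega⟩
      rw [hQ]
      have h1 : ∀ D ∈ mod (n + 1), Real.exp (l * ∑ k ∈ Q.filter (fun k => k < N), win J D k) =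
          (fun a _ : ℤ => Real.exp (l * ∑ k ∈ Q.filter (fun k => k < N), win J a k)) (D % P) (D % (pr n : ℤ)) := by
        intro D _
        show _ = Real.exp (l * ∑ k ∈ Q.filter (fun k => k < N), win J (D % P) k)
        rw [hper]
      rw [mean_congr h1, mean_split n (fun a _ : ℤ => Real.exp (l * ∑ k ∈ Q.filter (fun k => k < N), win J a k))]
      refine le_trans (le_of_eq ?_) ih
      refine mean_congr fun a _ => ?_
      unfold mean
      rw [sum_const, nsmul_eq_mul]
      have : ((res (pr n)).card : ℝ) ≠ 0 := by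
        rw [card_res]
        exact_mod_cast (pr_prime n).ne_zero
      field_simp

lemma exp_win' (J : Finset ℕ) (t : ℕ) (ht : t ∈ J) (hJ : ∀ i ∈ J, i ≤ t) (Q : Finset ℕ) (N : ℕ) (hQ : Q ⊆ range N) (l : ℝ) :
    mean (mod (N + t)) (fun D => Real.exp (l * ∑ k ∈ Q, win J D k)) ≤ Real.exp (l ^ 2 * Q.card / 2) := by
  have h := exp_win J t ht hJ Q l N
  have h1 : Q.filter (fun k => k < N) = Q := filter_true_of_mem fun k hk => mem_range.1 (hQ hk)
  rw [h1] at h
  exact h

/-- even moments of the model -/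
lemma pow_win (J : Finset ℕ) (t : ℕ) (ht : t ∈ J) (hJ : ∀ i ∈ J, i ≤ t) (Q : Finset ℕ) (N : ℕ) (hQ : Q ⊆ range N)
    (hQ0 : Q.Nonempty) (p : ℕ) (hp : 1 ≤ p) :
    mean (mod (N + t)) (fun D => (∑ k ∈ Q, win J D k) ^ (2 * p)) ≤ 2 * (2 * Real.exp 1 * p * Q.card) ^ p := by
  have hq0 : (0 : ℝ) < Q.card := by exact_mod_cast hQ0.card_pos
  have hp0 : (0 : ℝ) < p := by exact_mod_cast hp
  set l : ℝ := √(2 * p / Q.card) with hl
  have hl0 : 0 < l := Real.sqrt_pos.2 (by positivity)
  have hl2 : l ^ 2 = 2 * p / Q.card := Real.sq_sqrt (by positivity)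
  set r := 2 * p with hr
  have hre : Even r := even_two_mul p
  have h1 : ∀ D ∈ mod (N + t), (∑ k ∈ Q, win J D k) ^ r ≤
      r.factorial / l ^ r * (Real.exp (l * ∑ k ∈ Q, win J D k) + Real.exp ((-l) * ∑ k ∈ Q, win J D k)) := by
    intro D _
    set x := ∑ k ∈ Q, win J D k
    have h2 : ∀ y : ℝ, 0 ≤ y → y ^ r / r.factorial ≤ Real.exp y := fun y hy => Real.pow_div_factorial_le_exp y hy r
    have h3 := h2 (l * |x|) (by positivity)
    have h4 : Real.exp (l * |x|) ≤ Real.exp (l * x) + Real.exp ((-l) * x) := by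
      rcases abs_cases x with h | h
      · rw [h.1]; have := Real.exp_pos ((-l) * x); linarith
      · rw [h.1, show l * -x = (-l) * x by ring]; have := Real.exp_pos (l * x); linarith
    have h5 : x ^ r = (l * |x|) ^ r / r.factorial * (r.factorial / l ^ r) := by
      rw [mul_pow, hre.pow_abs]
      have : (r.factorial : ℝ) ≠ 0 := by positivity
      field_simp
    rw [h5, mul_comm]
    apply mul_le_mul_of_nonneg_left (h3.trans h4) (by positivity)
  refine (mean_mono h1).trans ?_
  rw [mean_const_mul, mean_add]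
  have h3 := exp_win' J t ht hJ Q N hQ l
  have h4 := exp_win' J t ht hJ Q N hQ (-l)
  rw [neg_sq] at h4
  have h5 : l ^ 2 * (Q.card : ℝ) / 2 = p := by
    rw [hl2]; field_simp
  rw [h5] at h3 h4
  have h6 : (0 : ℝ) ≤ r.factorial / l ^ r := by positivity
  refine (mul_le_mul_of_nonneg_left (add_le_add h3 h4) h6).trans ?_
  have h7 : l ^ r = (2 * p / Q.card) ^ p := by rw [hr, pow_mul, hl2]
  have h8 : (r.factorial : ℝ) ≤ (2 * p : ℝ) ^ (2 * p) := by
    have := Nat.factorial_le_pow r
    have h9 : (r.factorial : ℝ) ≤ ((r ^ r : ℕ) : ℝ) := by exact_mod_cast this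
    refine h9.trans (le_of_eq ?_)
    rw [hr]; push_cast; rfl
  rw [h7]
  have h9 : Real.exp (p : ℝ) = Real.exp 1 ^ p := by rw [← Real.exp_nat_mul, mul_one]
  rw [h9]
  have h10 : (r.factorial : ℝ) / (2 * p / Q.card) ^ p * (Real.exp 1 ^ p + Real.exp 1 ^ p) ≤
      (2 * p : ℝ) ^ (2 * p) / (2 * p / Q.card) ^ p * (Real.exp 1 ^ p + Real.exp 1 ^ p) := by
    apply mul_le_mul_of_nonneg_right _ (by positivity)
    exact div_le_div_of_nonneg_right h8 (by positivity)
  refine h10.trans (le_of_eq ?_)
  rw [div_pow, two_mul p, pow_add, mul_pow (2 * Real.exp 1 * p) (Q.card : ℝ), mul_pow (2 * Real.exp 1) (p : ℝ),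
    mul_pow 2 (Real.exp 1), mul_pow 2 (p : ℝ)]
  have a1 : (2 : ℝ) ^ p ≠ 0 := by positivity
  have a2 : (p : ℝ) ^ p ≠ 0 := by positivity
  have a3 : (Q.card : ℝ) ^ p ≠ 0 := by positivity
  field_simp
  ring

/-- comparison of a monomial -/
lemma mono_compare' {α : Type*} [Fintype α] {K X : ℕ} (hX : ∀ k < K, pr k ≤ X) (hX1 : 1 ≤ X) (f : α → ℕ) (hf : ∀ i, f i < K)
    (M : ℤ) (H : ℕ) (hH : 0 < H) :
    |mean (Ico M (M + H)) (fun D => ∏ i, chi (f i) D) - mean (mod K) (fun D => ∏ i, chi (f i) D)| ≤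
      (X : ℝ) ^ Fintype.card α / H := by
  classical
  have h1 : ∀ D : ℤ, ∏ i, chi (f i) D = ∏ k ∈ univ.image f, chi k D ^ (univ.filter (fun i => f i = k)).card := by
    intro D
    exact Finset.prod_comp (fun k => chi k D) f
  simp only [h1]
  have hT : univ.image f ⊆ range K := by
    intro k hk
    obtain ⟨i, _, rfl⟩ := mem_image.1 hk
    exact mem_range.2 (hf i)
  have h2 := mean_compare (𝕜 := ℝ) hT (fun k D => chi k D ^ (univ.filter (fun i => f i = k)).card)
    (fun k D => by simp only [chi_mod]) (fun k D => by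
      rw [norm_pow, Real.norm_eq_abs]
      exact pow_le_one₀ (abs_nonneg _) (abs_chi_le k D)) M H hH
  rw [Real.norm_eq_abs] at h2
  refine h2.trans (div_le_div_of_nonneg_right ?_ (by positivity))
  have h3 : ∏ k ∈ univ.image f, pr k ≤ X ^ Fintype.card α := by
    calc ∏ k ∈ univ.image f, pr k ≤ ∏ k ∈ univ.image f, X := prod_le_prod (fun _ _ => Nat.zero_le _) fun k hk =>
          hX k (mem_range.1 (hT hk))
      _ = X ^ (univ.image f).card := by rw [prod_const]
      _ ≤ X ^ Fintype.card α := Nat.pow_le_pow_right hX1 (card_image_le.trans (by simp))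
  exact_mod_cast h3

/-- comparison of the moments -/
lemma win_compare (J Q : Finset ℕ) {N t X : ℕ} (hJ : ∀ i ∈ J, i ≤ t) (hQ : Q ⊆ range N) (hX : ∀ k < N + t, pr k ≤ X)
    (hX1 : 1 ≤ X) (j : ℕ) (M : ℤ) (H : ℕ) (hH : 0 < H) :
    |mean (Ico M (M + H)) (fun D => (∑ k ∈ Q, win J D k) ^ j) - mean (mod (N + t)) (fun D => (∑ k ∈ Q, win J D k) ^ j)| ≤
      (Q.card : ℝ) ^ j * ((X : ℝ) ^ (j * J.card) / H) := by
  classical
  have h0 : ∀ D : ℤ, (∑ k ∈ Q, win J D k) ^ j = ∑ f ∈ Fintype.piFinset (fun _ : Fin j => Q), ∏ a : Fin j × J, chi (f a.1 + a.2) D := by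
    intro D
    have h := Finset.prod_univ_sum (fun _ : Fin j => Q) (fun _ k => win J D k)
    rw [Finset.prod_const, Finset.card_univ, Fintype.card_fin] at h
    rw [h]
    refine sum_congr rfl fun f _ => ?_
    rw [Fintype.prod_prod_type]
    refine prod_congr rfl fun i _ => ?_
    unfold win
    exact (Finset.prod_coe_sort J (fun a => chi (f i + a) D)).symm
  have h1 : ∀ Ω : Finset ℤ, mean Ω (fun D => (∑ k ∈ Q, win J D k) ^ j) =
      ∑ f ∈ Fintype.piFinset (fun _ : Fin j => Q), mean Ω (fun D => ∏ a : Fin j × J, chi (f a.1 + a.2) D) := by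
    intro Ω
    rw [mean_congr fun D _ => h0 D, mean_sum]
  rw [h1, h1, ← sum_sub_distrib]
  refine (abs_sum_le_sum_abs _ _).trans ?_
  have h2 : ∀ f ∈ Fintype.piFinset (fun _ : Fin j => Q),
      |mean (Ico M (M + (H : ℤ))) (fun D => ∏ a : Fin j × J, chi (f a.1 + a.2) D) -
        mean (mod (N + t)) (fun D => ∏ a : Fin j × J, chi (f a.1 + a.2) D)| ≤ (X : ℝ) ^ (j * J.card) / H := by
    intro f hf
    have h3 := mono_compare' hX hX1 (fun a : Fin j × J => f a.1 + a.2) (fun a => by
      have h4 := mem_range.1 (hQ (Fintype.mem_piFinset.1 hf a.1))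
      have h5 := hJ a.2 a.2.2
      omega) M H hH
    rw [Fintype.card_prod, Fintype.card_fin, Fintype.card_coe] at h3
    exact h3
  refine (sum_le_sum h2).trans ?_
  rw [sum_const, Fintype.card_piFinset, nsmul_eq_mul]
  simp

/-- **the moments over an interval** -/
theorem win_mom (J : Finset ℕ) (s : ℕ) (hJ0 : J.Nonempty) (hJ : ∀ i ∈ J, i < s) (N X : ℕ) (hX : ∀ k < N + s, pr k ≤ X)
    (hX1 : 1 ≤ X) (p : ℕ) (hp : 1 ≤ p) (M : ℤ) (H : ℕ) (hH : 0 < H) (Q : Finset ℕ) (hQ : Q ⊆ range N) (hQ0 : Q.Nonempty) :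
    ∑ D ∈ Ico M (M + H), (∑ k ∈ Q, win J D k) ^ (2 * p) ≤
      H * (2 * (2 * Real.exp 1 * p * Q.card) ^ p + (N : ℝ) ^ (2 * p) * ((X : ℝ) ^ (2 * p * s) / H)) := by
  classical
  set t := J.max' hJ0 with ht
  have htJ : t ∈ J := J.max'_mem hJ0
  have hJt : ∀ i ∈ J, i ≤ t := fun i hi => J.le_max' i hi
  have hts := hJ t htJ
  have hH0 : (0 : ℝ) < H := by exact_mod_cast hH
  have h1 := win_compare J Q hJt hQ (fun k hk => hX k (by omega)) hX1 (2 * p) M H hH
  have h2 := pow_win J t htJ hJt Q N hQ hQ0 p hp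
  have h3 : mean (Ico M (M + H)) (fun D => (∑ k ∈ Q, win J D k) ^ (2 * p)) ≤
      2 * (2 * Real.exp 1 * p * Q.card) ^ p + (Q.card : ℝ) ^ (2 * p) * ((X : ℝ) ^ (2 * p * J.card) / H) := by
    have := (abs_le.1 h1).2
    linarith
  have h4 : (Q.card : ℝ) ^ (2 * p) * ((X : ℝ) ^ (2 * p * J.card) / H) ≤ (N : ℝ) ^ (2 * p) * ((X : ℝ) ^ (2 * p * s) / H) := by
    apply mul_le_mul
    · apply pow_le_pow_left₀ (by positivity)
      have := card_le_card hQ
      rw [card_range] at this
      exact_mod_cast this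
    · apply div_le_div_of_nonneg_right _ hH0.le
      apply pow_le_pow_right₀ (by exact_mod_cast hX1)
      apply Nat.mul_le_mul_left
      have h5 : J ⊆ range s := fun i hi => mem_range.2 (hJ i hi)
      have := card_le_card h5
      rwa [card_range] at this
    · positivity
    · positivity
  have h5 : ∑ D ∈ Ico M (M + (H : ℤ)), (∑ k ∈ Q, win J D k) ^ (2 * p) =
      H * mean (Ico M (M + H)) (fun D => (∑ k ∈ Q, win J D k) ^ (2 * p)) := by
    unfold mean
    have : (Ico M (M + (H : ℤ))).card = H := by simp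
    rw [this]
    field_simp
  rw [h5]
  exact mul_le_mul_of_nonneg_left (h3.trans (by linarith)) hH0.le

end

end Pool.Agent.J4.H33.UL
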