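import Mathlib
import Pool.Agent.J4.H33.UL.Win
import Pool.Agent.J4.H33.GL.Curve

set_option autoImplicit false

/-! # Expansion of the indicator functions of boxes -/

namespace Pool.Agent.J4.H33.UL

open Finset Pool.Agent.J4.H33.LIL Pool.Agent.J4.H33.GL Pool.Agent.W406.TW

noncomputable section

variable {s : ℕ}

/-- the coordinates of the windows, with the coordinates in `σ` reflected -/
def yy (x : ℕ → ℝ) (σ : Finset (Fin s)) (i : Fin s) (k : ℕ) : ℝ := if i ∈ σ then 1 - x (k + i) else x (k + i)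

open Classical in
/-- the indicator function of an anchored box -/
def cc (x : ℕ → ℝ) (σ : Finset (Fin s)) (w : Fin s → ℝ) (k : ℕ) : ℝ := if ∀ i, yy x σ i k < w i then 1 else 0

/-- the signs -/
def ee (σ : Finset (Fin s)) (i : Fin s) : ℝ := if i ∈ σ then -1 else 1

/-- the weights -/
def WW (σ : Finset (Fin s)) (D : ℤ) (k : ℕ) : ℝ := ∏ i : Fin s, (1 + ee σ i * chi (k + i) D) / 2

lemma abs_ee (σ : Finset (Fin s)) (i : Fin s) : |ee σ i| = 1 := by
  unfold ee
  split_ifs <;> norm_num

lemma WW_expand (σ : Finset (Fin s)) (D : ℤ) (k : ℕ) : WW σ D k =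
    (1 / 2 ^ s) * ∑ T : Finset (Fin s), (∏ i ∈ T, ee σ i) * win (T.map Fin.valEmbedding) D k := by
  unfold WW
  rw [prod_div_distrib, prod_one_add, powerset_univ]
  simp only [prod_const, card_univ, Fintype.card_fin]
  rw [div_eq_inv_mul, one_div]
  congr 1
  refine sum_congr rfl fun T _ => ?_
  rw [prod_mul_distrib]
  congr 1
  unfold win
  rw [prod_map]
  rfl

lemma abs_WW_le (σ : Finset (Fin s)) (D : ℤ) (k : ℕ) : |WW σ D k| ≤ 1 := by
  unfold WW
  rw [abs_prod]
  refine prod_le_one (fun _ _ => abs_nonneg _) fun i _ => ?_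
  have h1 : |ee σ i * chi (k + i) D| ≤ 1 := by
    rw [abs_mul, abs_ee, one_mul]
    exact abs_chi_le _ D
  have h2 := abs_le.1 h1
  rw [abs_le]
  constructor <;> linarith

lemma abs_cc_le (x : ℕ → ℝ) (σ : Finset (Fin s)) (w : Fin s → ℝ) (k : ℕ) : |cc x σ w k| ≤ 1 := by
  unfold cc
  split_ifs <;> norm_num

open Classical in
/-- at a good index the indicator function of the twist is the sum -/
lemma good (x X : ℕ → ℝ) (D : ℤ) (k : ℕ)
    (h : ∀ i : Fin s, (chi (k + i) D = 1 ∧ X (k + i) = x (k + i)) ∨ (chi (k + i) D = -1 ∧ X (k + i) = 1 - x (k + i)))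
    (w : Fin s → ℝ) : cc X ∅ w k = ∑ σ : Finset (Fin s), cc x σ w k * WW σ D k := by
  set σ₀ : Finset (Fin s) := univ.filter (fun i => chi (k + i) D = -1) with hσ
  rw [sum_eq_single σ₀]
  · have h1 : WW σ₀ D k = 1 := by
      unfold WW
      refine prod_eq_one fun i _ => ?_
      unfold ee
      rcases h i with ⟨h2, _⟩ | ⟨h2, _⟩
      · have : i ∉ σ₀ := by
          rw [hσ, mem_filter, h2]
          rintro ⟨_, h3⟩
          norm_num at h3
        rw [if_neg this, h2]; norm_num
      · have : i ∈ σ₀ := by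
          rw [hσ, mem_filter]
          exact ⟨mem_univ _, h2⟩
        rw [if_pos this, h2]; norm_num
    rw [h1, mul_one]
    unfold cc
    congr 1
    apply propext
    refine forall_congr' fun i => ?_
    have h3 : yy X ∅ i k = yy x σ₀ i k := by
      unfold yy
      rcases h i with ⟨h2, h4⟩ | ⟨h2, h4⟩
      · have : i ∉ σ₀ := by
          rw [hσ, mem_filter, h2]
          rintro ⟨_, h3⟩
          norm_num at h3
        rw [if_neg this, if_neg (notMem_empty i), h4]
      · have : i ∈ σ₀ := by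
          rw [hσ, mem_filter]
          exact ⟨mem_univ _, h2⟩
        rw [if_pos this, if_neg (notMem_empty i), h4]
    rw [h3]
  · intro σ _ hne
    have h1 : WW σ D k = 0 := by
      have h2 : ∃ i, (i ∈ σ ∧ i ∉ σ₀) ∨ (i ∉ σ ∧ i ∈ σ₀) := by
        by_contra hcon
        push Not at hcon
        apply hne
        ext i
        have h3 := hcon i
        constructor
        · intro h4; by_contra h5; exact absurd (h3.1 h4) h5
        · intro h4; by_contra h5; exact (h3.2 h5) h4
      obtain ⟨i, hi⟩ := h2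
      unfold WW
      refine prod_eq_zero (mem_univ i) ?_
      unfold ee
      rcases hi with ⟨h3, h4⟩ | ⟨h3, h4⟩
      · rcases h i with ⟨h5, _⟩ | ⟨h5, _⟩
        · rw [if_pos h3, h5]; norm_num
        · exact absurd (by rw [hσ, mem_filter]; exact ⟨mem_univ _, h5⟩) h4
      · have h5 := (mem_filter.1 h4).2
        rw [if_neg h3, h5]; norm_num
    rw [h1, mul_zero]
  · intro h1
    exact absurd (mem_univ _) h1

/-- shifting the indices -/
lemma shift_card (P : ℕ → Prop) [DecidablePred P] (K i s : ℕ) (hi : i < s) :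
    ((range K).filter (fun k => P (k + i))).card ≤ ((range (K + s)).filter P).card := by
  refine card_le_card_of_injOn (fun k => k + i) ?_ ?_
  · intro k hk
    have h := mem_filter.1 (mem_coe.1 hk)
    have h1 := mem_range.1 h.1
    exact mem_coe.2 (mem_filter.2 ⟨mem_range.2 (show k + i < K + s by omega), h.2⟩)
  · intro a _ b _ hab
    have : a + i = b + i := hab
    omega

/-- **The expansion of the count for the twist.** -/
theorem expand {A B : ℤ} {x : ℕ → ℝ} (hx : IsAngles A B x) {D : ℤ} {X : ℕ → ℝ} (hX : IsAngles (A * D ^ 2) (B * D ^ 3) X)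
    (w : Fin s → ℝ) (K : ℕ) (b : ℝ) (hb0 : 0 ≤ b)
    (hb : ∀ σ T : Finset (Fin s), T.Nonempty → |∑ k ∈ range K, cc x σ w k * win (T.map Fin.valEmbedding) D k| ≤ b) :
    |∑ k ∈ range K, cc X ∅ w k - (1 / 2 ^ s) * ∑ σ : Finset (Fin s), ∑ k ∈ range K, cc x σ w k| ≤
      2 ^ s * b + (1 + 2 ^ s) * s * (bad A B (K + s) + om (K + s) D) := by
  classical
  -- the first difference
  have h1 : |∑ k ∈ range K, cc X ∅ w k - ∑ k ∈ range K, ∑ σ : Finset (Fin s), cc x σ w k * WW σ D k| ≤
      (1 + 2 ^ s) * s * (bad A B (K + s) + om (K + s) D) := by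
    rw [← sum_sub_distrib]
    refine (abs_sum_le_sum_abs _ _).trans ?_
    have h2 : ∀ k ∈ range K, |cc X ∅ w k - ∑ σ : Finset (Fin s), cc x σ w k * WW σ D k| ≤
        (1 + 2 ^ s) * ∑ i : Fin s, ((if (pr (k + i) : ℤ) ∣ 2 * (4 * A ^ 3 + 27 * B ^ 2) then (1 : ℝ) else 0) +
          (if (pr (k + i) : ℤ) ∣ D then (1 : ℝ) else 0)) := by
      intro k _
      have hnn : ∀ i : Fin s, (0 : ℝ) ≤ ((if (pr (k + i) : ℤ) ∣ 2 * (4 * A ^ 3 + 27 * B ^ 2) then (1 : ℝ) else 0) +
          (if (pr (k + i) : ℤ) ∣ D then (1 : ℝ) else 0)) := by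
        intro i
        apply add_nonneg <;> split_ifs <;> norm_num
      by_cases hg : ∀ i : Fin s, ¬ (pr (k + i) : ℤ) ∣ 2 * (4 * A ^ 3 + 27 * B ^ 2) ∧ ¬ (pr (k + i) : ℤ) ∣ D
      · rw [good x X D k (fun i => angle_twist hx hX (hg i).1 (hg i).2) w, sub_self, abs_zero]
        have := sum_nonneg fun i (_ : i ∈ univ) => hnn i
        positivity
      · push Not at hg
        obtain ⟨i, hi⟩ := hg
        have h3 : (1 : ℝ) ≤ ∑ i : Fin s, ((if (pr (k + i) : ℤ) ∣ 2 * (4 * A ^ 3 + 27 * B ^ 2) then (1 : ℝ) else 0) +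
          (if (pr (k + i) : ℤ) ∣ D then (1 : ℝ) else 0)) := by
          refine le_trans ?_ (single_le_sum (fun i _ => hnn i) (mem_univ i))
          by_cases h4 : (pr (k + i) : ℤ) ∣ 2 * (4 * A ^ 3 + 27 * B ^ 2)
          · rw [if_pos h4]
            have : (0 : ℝ) ≤ if (pr (k + i) : ℤ) ∣ D then (1 : ℝ) else 0 := by split_ifs <;> norm_num
            linarith
          · rw [if_neg h4, if_pos (hi h4)]; norm_num
        have h4 : |∑ σ : Finset (Fin s), cc x σ w k * WW σ D k| ≤ 2 ^ s := by
          refine (abs_sum_le_sum_abs _ _).trans ?_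
          calc ∑ σ : Finset (Fin s), |cc x σ w k * WW σ D k| ≤ ∑ _σ : Finset (Fin s), (1 : ℝ) := by
                refine sum_le_sum fun σ _ => ?_
                rw [abs_mul]
                exact mul_le_one₀ (abs_cc_le x σ w k) (abs_nonneg _) (abs_WW_le σ D k)
            _ = 2 ^ s := by simp
        have h5 := abs_cc_le X ∅ w k
        calc |cc X ∅ w k - ∑ σ : Finset (Fin s), cc x σ w k * WW σ D k| ≤ 1 + 2 ^ s := (abs_sub _ _).trans (by linarith)
          _ = (1 + 2 ^ s) * 1 := (mul_one _).symm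
          _ ≤ _ := mul_le_mul_of_nonneg_left h3 (by positivity)
    refine (sum_le_sum h2).trans ?_
    rw [← mul_sum, sum_comm, mul_assoc]
    apply mul_le_mul_of_nonneg_left _ (by positivity)
    have h3 : ∀ i ∈ (univ : Finset (Fin s)), ∑ k ∈ range K, ((if (pr (k + i) : ℤ) ∣ 2 * (4 * A ^ 3 + 27 * B ^ 2) then (1 : ℝ) else 0) +
          (if (pr (k + i) : ℤ) ∣ D then (1 : ℝ) else 0)) ≤ bad A B (K + s) + om (K + s) D := by
      intro i _
      rw [sum_add_distrib, sum_boole, sum_boole]
      apply add_le_add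
      · have := shift_card (fun j => (pr j : ℤ) ∣ 2 * (4 * A ^ 3 + 27 * B ^ 2)) K i s i.2
        exact_mod_cast this
      · have := shift_card (fun j => (pr j : ℤ) ∣ D) K i s i.2
        exact_mod_cast this
    refine (sum_le_sum h3).trans ?_
    rw [sum_const, card_univ, Fintype.card_fin, nsmul_eq_mul]
  -- the second difference
  have h2 : |∑ k ∈ range K, ∑ σ : Finset (Fin s), cc x σ w k * WW σ D k -
      (1 / 2 ^ s) * ∑ σ : Finset (Fin s), ∑ k ∈ range K, cc x σ w k| ≤ 2 ^ s * b := by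
    have e1 : ∑ k ∈ range K, ∑ σ : Finset (Fin s), cc x σ w k * WW σ D k =
        ∑ σ : Finset (Fin s), (1 / 2 ^ s) * ∑ T : Finset (Fin s), (∏ i ∈ T, ee σ i) *
          ∑ k ∈ range K, cc x σ w k * win (T.map Fin.valEmbedding) D k := by
      rw [sum_comm]
      refine sum_congr rfl fun σ _ => ?_
      have e2 : ∀ k ∈ range K, cc x σ w k * WW σ D k = (1 / 2 ^ s) * ∑ T : Finset (Fin s), (∏ i ∈ T, ee σ i) *
          (cc x σ w k * win (T.map Fin.valEmbedding) D k) := by
        intro k _
        rw [WW_expand, mul_left_comm, mul_sum]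
        congr 1
        refine sum_congr rfl fun T _ => ?_
        ring
      rw [sum_congr rfl e2, ← mul_sum, sum_comm]
      congr 1
      refine sum_congr rfl fun T _ => ?_
      rw [mul_sum]
    rw [e1, mul_sum, ← sum_sub_distrib]
    refine (abs_sum_le_sum_abs _ _).trans ?_
    have e3 : ∀ σ ∈ (univ : Finset (Finset (Fin s))), |(1 / 2 ^ s) * ∑ T : Finset (Fin s), (∏ i ∈ T, ee σ i) *
          ∑ k ∈ range K, cc x σ w k * win (T.map Fin.valEmbedding) D k - (1 / 2 ^ s) * ∑ k ∈ range K, cc x σ w k| ≤ b := by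
      intro σ _
      rw [← mul_sub, abs_mul, abs_of_pos (show (0 : ℝ) < 1 / 2 ^ s by positivity)]
      have e4 : ∑ T : Finset (Fin s), (∏ i ∈ T, ee σ i) * ∑ k ∈ range K, cc x σ w k * win (T.map Fin.valEmbedding) D k -
          ∑ k ∈ range K, cc x σ w k = ∑ T ∈ (univ : Finset (Finset (Fin s))).erase ∅, (∏ i ∈ T, ee σ i) *
            ∑ k ∈ range K, cc x σ w k * win (T.map Fin.valEmbedding) D k := by
        rw [← add_sum_erase univ _ (mem_univ (∅ : Finset (Fin s)))]
        have : ∑ k ∈ range K, cc x σ w k * win ((∅ : Finset (Fin s)).map Fin.valEmbedding) D k = ∑ k ∈ range K, cc x σ w k := by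
          refine sum_congr rfl fun k _ => ?_
          unfold win
          simp
        rw [this]
        simp
      rw [e4]
      have e5 : |∑ T ∈ (univ : Finset (Finset (Fin s))).erase ∅, (∏ i ∈ T, ee σ i) *
            ∑ k ∈ range K, cc x σ w k * win (T.map Fin.valEmbedding) D k| ≤ 2 ^ s * b := by
        refine (abs_sum_le_sum_abs _ _).trans ?_
        have e6 : ∀ T ∈ (univ : Finset (Finset (Fin s))).erase ∅, |(∏ i ∈ T, ee σ i) *
            ∑ k ∈ range K, cc x σ w k * win (T.map Fin.valEmbedding) D k| ≤ b := by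
          intro T hT
          rw [abs_mul, abs_prod, prod_eq_one (fun i _ => abs_ee σ i), one_mul]
          exact hb σ T (nonempty_iff_ne_empty.2 (ne_of_mem_erase hT))
        refine (sum_le_sum e6).trans ?_
        rw [sum_const, nsmul_eq_mul]
        apply mul_le_mul_of_nonneg_right _ hb0
        have := card_le_card (erase_subset ∅ (univ : Finset (Finset (Fin s))))
        rw [card_univ, Fintype.card_finset, Fintype.card_fin] at this
        exact_mod_cast this
      calc 1 / 2 ^ s * _ ≤ 1 / 2 ^ s * (2 ^ s * b) := mul_le_mul_of_nonneg_left e5 (by positivity)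
        _ = b := by field_simp
    refine (sum_le_sum e3).trans ?_
    simp
  calc _ ≤ _ := abs_sub_le _ (∑ k ∈ range K, ∑ σ : Finset (Fin s), cc x σ w k * WW σ D k) _
    _ ≤ _ := by linarith

end

end Pool.Agent.J4.H33.UL
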