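import Mathlib

set_option autoImplicit false

/-! # Chaining over dyadic boxes of ranks -/

namespace Pool.Agent.J4.H33.UL

open Finset

noncomputable section

/-- the rank of `k` in `Ω` in the order given by `y` (ties broken by `k`) -/
def rank (Ω : Finset ℕ) (y : ℕ → ℝ) (k : ℕ) : ℕ := by
  classical exact (Ω.filter (fun j => y j < y k ∨ (y j = y k ∧ j < k))).card

lemma rank_lt {Ω : Finset ℕ} {y : ℕ → ℝ} {j k : ℕ} (hj : j ∈ Ω) (h : y j < y k ∨ (y j = y k ∧ j < k)) :
    rank Ω y j < rank Ω y k := by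
  classical
  unfold rank
  apply card_lt_card
  constructor
  · intro i hi
    obtain ⟨hi1, hi2⟩ := mem_filter.1 hi
    refine mem_filter.2 ⟨hi1, ?_⟩
    rcases h with h | ⟨h, h'⟩ <;> rcases hi2 with hi2 | ⟨hi2, hi3⟩
    · left; linarith
    · left; linarith
    · left; linarith
    · right; exact ⟨hi2.trans h, hi3.trans h'⟩
  · intro hcon
    have h1 : j ∈ Ω.filter (fun i => y i < y k ∨ (y i = y k ∧ i < k)) := mem_filter.2 ⟨hj, h⟩
    have h2 := mem_filter.1 (hcon h1)
    rcases h2.2 with h3 | ⟨_, h3⟩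
    · exact lt_irrefl _ h3
    · exact lt_irrefl _ h3

lemma rank_inj {Ω : Finset ℕ} {y : ℕ → ℝ} {j k : ℕ} (hj : j ∈ Ω) (hk : k ∈ Ω) (h : rank Ω y j = rank Ω y k) : j = k := by
  by_contra hne
  rcases lt_trichotomy (y j) (y k) with h1 | h1 | h1
  · exact absurd h (rank_lt hj (Or.inl h1)).ne
  · rcases lt_or_gt_of_ne hne with h2 | h2
    · exact absurd h (rank_lt hj (Or.inr ⟨h1, h2⟩)).ne
    · exact absurd h (rank_lt hk (Or.inr ⟨h1.symm, h2⟩)).ne'
  · exact absurd h (rank_lt hk (Or.inl h1)).ne'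

open Classical in
/-- the points below a threshold are those of small rank -/
lemma rank_thr (Ω : Finset ℕ) (y : ℕ → ℝ) (w : ℝ) : ∀ k ∈ Ω, (y k < w ↔ rank Ω y k < (Ω.filter (fun j => y j < w)).card) := by
  intro k hk
  constructor
  · intro h
    unfold rank
    apply card_lt_card
    constructor
    · intro i hi
      obtain ⟨hi1, hi2⟩ := mem_filter.1 hi
      refine mem_filter.2 ⟨hi1, ?_⟩
      rcases hi2 with hi2 | ⟨hi2, _⟩ <;> linarith
    · intro hcon
      have h1 : k ∈ Ω.filter (fun j => y j < w) := mem_filter.2 ⟨hk, h⟩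
      have h2 := mem_filter.1 (hcon h1)
      rcases h2.2 with h3 | ⟨_, h3⟩
      · exact lt_irrefl _ h3
      · exact lt_irrefl _ h3
  · intro h
    by_contra hcon
    push Not at hcon
    apply absurd h
    rw [not_lt]
    unfold rank
    apply card_le_card
    intro i hi
    obtain ⟨hi1, hi2⟩ := mem_filter.1 hi
    exact mem_filter.2 ⟨hi1, Or.inl (by linarith)⟩

/-- the binary decomposition of an initial segment -/
lemma seg (L : ℕ) : ∀ m r : ℕ, m < 2 ^ (L + 1) → (if r < m then (1 : ℝ) else 0) =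
    ∑ l ∈ range (L + 1), if (m / 2 ^ l) % 2 = 1 ∧ r / 2 ^ l + 1 = m / 2 ^ l then (1 : ℝ) else 0 := by
  induction L with
  | zero =>
    intro m r hm
    simp only [zero_add, pow_one, range_one, sum_singleton, pow_zero, Nat.div_one]
    by_cases h : r < m
    · rw [if_pos h, if_pos (by omega)]
    · rw [if_neg h, if_neg (by omega)]
  | succ L ih =>
    intro m r hm
    rw [sum_range_succ']
    have h1 : ∀ l ∈ range (L + 1), (if (m / 2 ^ (l + 1)) % 2 = 1 ∧ r / 2 ^ (l + 1) + 1 = m / 2 ^ (l + 1) then (1 : ℝ) else 0) =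
        if ((m / 2) / 2 ^ l) % 2 = 1 ∧ (r / 2) / 2 ^ l + 1 = (m / 2) / 2 ^ l then (1 : ℝ) else 0 := by
      intro l _
      have e1 : m / 2 ^ (l + 1) = (m / 2) / 2 ^ l := by rw [Nat.div_div_eq_div_mul, pow_succ, mul_comm]
      have e2 : r / 2 ^ (l + 1) = (r / 2) / 2 ^ l := by rw [Nat.div_div_eq_div_mul, pow_succ, mul_comm]
      rw [e1, e2]
    rw [sum_congr rfl h1, ← ih (m / 2) (r / 2) (by rw [pow_succ] at hm; omega)]
    simp only [pow_zero, Nat.div_one]
    by_cases h : r / 2 < m / 2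
    · rw [if_pos h, if_pos (by omega), if_neg (by omega)]; norm_num
    · rw [if_neg h]
      by_cases h2 : r < m
      · rw [if_pos h2, if_pos (by omega)]; norm_num
      · rw [if_neg h2, if_neg (by omega)]; norm_num

variable {ι : Type*} [Fintype ι] [DecidableEq ι]

/-- the cell of the level vector `l` and the position `j` -/
def cell (r : ι → ℕ → ℕ) (N : ℕ) (l j : ι → ℕ) : Finset ℕ := (range N).filter (fun k => ∀ i, r i k / 2 ^ l i = j i)

/-- **Chaining.** -/
theorem chain (r : ι → ℕ → ℕ) (L : ℕ) (ω : ℕ → ℝ) (b : (ι → ℕ) → ℝ)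
    (hb : ∀ l ∈ Fintype.piFinset (fun _ : ι => range (L + 1)), ∀ j : ι → ℕ, |∑ k ∈ cell r (2 ^ L) l j, ω k| ≤ b l)
    (m : ι → ℕ) (hm : ∀ i, m i ≤ 2 ^ L) :
    |∑ k ∈ (range (2 ^ L)).filter (fun k => ∀ i, r i k < m i), ω k| ≤
      ∑ l ∈ Fintype.piFinset (fun _ : ι => range (L + 1)), b l := by
  classical
  have h1 : ∑ k ∈ (range (2 ^ L)).filter (fun k => ∀ i, r i k < m i), ω k =
      ∑ l ∈ Fintype.piFinset (fun _ : ι => range (L + 1)), ∑ k ∈ range (2 ^ L),
        ω k * ∏ i, (if (m i / 2 ^ l i) % 2 = 1 ∧ r i k / 2 ^ l i + 1 = m i / 2 ^ l i then (1 : ℝ) else 0) := by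
    rw [sum_comm, sum_filter]
    refine sum_congr rfl fun k _ => ?_
    rw [← mul_sum]
    have h2 := Finset.prod_univ_sum (fun _ : ι => range (L + 1))
      (fun i l => if (m i / 2 ^ l) % 2 = 1 ∧ r i k / 2 ^ l + 1 = m i / 2 ^ l then (1 : ℝ) else 0)
    rw [← h2]
    have h3 : ∀ i, ∑ l ∈ range (L + 1), (if (m i / 2 ^ l) % 2 = 1 ∧ r i k / 2 ^ l + 1 = m i / 2 ^ l then (1 : ℝ) else 0) =
        if r i k < m i then 1 else 0 := by
      intro i
      rw [← seg L (m i) (r i k)]
      have := hm i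
      rw [pow_succ]
      have : 0 < 2 ^ L := by positivity
      omega
    simp only [h3]
    by_cases h4 : ∀ i, r i k < m i
    · rw [if_pos h4, prod_eq_one (fun i _ => if_pos (h4 i)), mul_one]
    · rw [if_neg h4]
      push Not at h4
      obtain ⟨i, hi⟩ := h4
      rw [prod_eq_zero (mem_univ i) (if_neg (not_lt.2 hi)), mul_zero]
  rw [h1]
  refine (abs_sum_le_sum_abs _ _).trans (sum_le_sum fun l hl => ?_)
  by_cases h2 : ∀ i, (m i / 2 ^ l i) % 2 = 1
  · have h3 := hb l hl (fun i => m i / 2 ^ l i - 1)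
    refine le_trans (le_of_eq ?_) h3
    congr 1
    unfold cell
    rw [sum_filter]
    refine sum_congr rfl fun k _ => ?_
    by_cases h4 : ∀ i, r i k / 2 ^ l i = m i / 2 ^ l i - 1
    · rw [if_pos h4, prod_eq_one, mul_one]
      intro i _
      rw [if_pos]
      have h5 := h2 i
      have h6 := h4 i
      refine ⟨h5, ?_⟩
      rw [h6]
      generalize m i / 2 ^ l i = a at h5
      omega
    · rw [if_neg h4]
      push Not at h4
      obtain ⟨i, hi⟩ := h4
      rw [prod_eq_zero (mem_univ i), mul_zero]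
      rw [if_neg]
      rintro ⟨h5, h6⟩
      apply hi
      rw [← h6]
      rfl
  · push Not at h2
    obtain ⟨i, hi⟩ := h2
    have h3 : ∀ k ∈ range (2 ^ L), ω k * ∏ i, (if (m i / 2 ^ l i) % 2 = 1 ∧ r i k / 2 ^ l i + 1 = m i / 2 ^ l i then (1 : ℝ) else 0) = 0 := by
      intro k _
      rw [prod_eq_zero (mem_univ i), mul_zero]
      rw [if_neg]
      rintro ⟨h5, _⟩
      exact hi h5
    rw [sum_congr rfl h3]
    simp only [sum_const_zero, abs_zero]
    exact (abs_nonneg _).trans (hb l hl (fun _ => 0))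

/-! ### The sizes of the cells -/

/-- the occupied cells of a level -/
def occ (r : ι → ℕ → ℕ) (N : ℕ) (l : ι → ℕ) : Finset (ι → ℕ) := (range N).image (fun k i => r i k / 2 ^ l i)

omit [Fintype ι] in
lemma cell_le (r : ι → ℕ → ℕ) (N : ℕ) (hr : ∀ i, Set.InjOn (r i) (range N)) (l j : ι → ℕ) [Fintype ι] (i : ι) :
    (cell r N l j).card ≤ 2 ^ l i := by
  classical
  have h1 : ((cell r N l j).image (r i)) ⊆ Ico (j i * 2 ^ l i) ((j i + 1) * 2 ^ l i) := by
    intro x hx
    obtain ⟨k, hk, rfl⟩ := mem_image.1 hx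
    have h2 := (mem_filter.1 hk).2 i
    have h3 : 0 < 2 ^ l i := by positivity
    rw [mem_Ico, ← h2]
    constructor
    · exact Nat.div_mul_le_self _ _
    · rw [mul_comm]
      exact Nat.lt_mul_div_succ _ h3
  have h2 : ((cell r N l j).image (r i)).card = (cell r N l j).card := by
    apply card_image_of_injOn
    intro a ha b hb hab
    exact hr i (mem_coe.2 (mem_filter.1 (mem_coe.1 ha)).1) (mem_coe.2 (mem_filter.1 (mem_coe.1 hb)).1) hab
  rw [← h2]
  refine (card_le_card h1).trans (le_of_eq ?_)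
  rw [Nat.card_Ico, ← Nat.sub_mul]
  simp

lemma cell_empty (r : ι → ℕ → ℕ) (N : ℕ) (l j : ι → ℕ) (hj : j ∉ occ r N l) : cell r N l j = ∅ := by
  classical
  unfold cell
  rw [filter_eq_empty_iff]
  intro k hk hcon
  apply hj
  unfold occ
  exact mem_image.2 ⟨k, hk, funext hcon⟩

lemma cell_sum (r : ι → ℕ → ℕ) (N : ℕ) (l : ι → ℕ) : ∑ j ∈ occ r N l, (cell r N l j).card = N := by
  classical
  have h := card_eq_sum_card_fiberwise (s := range N) (t := occ r N l) (f := fun k i => r i k / 2 ^ l i)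
    (fun k hk => mem_coe.2 (mem_image_of_mem _ (mem_coe.1 hk)))
  rw [card_range] at h
  refine Eq.trans (sum_congr rfl fun j _ => ?_) h.symm
  unfold cell
  congr 1
  ext k
  simp only [mem_filter, funext_iff]

lemma occ_card (r : ι → ℕ → ℕ) (N : ℕ) (l : ι → ℕ) : (occ r N l).card ≤ N := by
  unfold occ
  exact card_image_le.trans (by simp)

end

end Pool.Agent.J4.H33.UL
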