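import Mathlib
import Pool.Agent.J4.H33.UL.Chain

set_option autoImplicit false

/-! # The maximal inequality -/

namespace Pool.Agent.J4.H33.UL

open Finset

noncomputable section

/-- the constant `2 ^ (- 1 / (8 d))` -/
def ga (d : ℕ) : ℝ := ((2 : ℝ) ^ (1 / (8 * d : ℝ)))⁻¹

lemma ga_pos (d : ℕ) : 0 < ga d := by unfold ga; positivity

lemma ga_lt (d : ℕ) (hd : 0 < d) : ga d < 1 := by
  unfold ga
  apply inv_lt_one_of_one_lt₀
  apply Real.one_lt_rpow (by norm_num)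
  have : (0 : ℝ) < d := by exact_mod_cast hd
  positivity

lemma ga_pow (d : ℕ) (hd : 0 < d) : ga d ^ (8 * d) = 2⁻¹ := by
  unfold ga
  rw [inv_pow, ← Real.rpow_natCast, ← Real.rpow_mul (by norm_num)]
  have : (0 : ℝ) < d := by exact_mod_cast hd
  push_cast
  rw [one_div_mul_cancel (by positivity), Real.rpow_one]

/-- the constant `(1 - 2 ^ (- 1 / (8 d))) ^ (- d)` -/
def Ga (d : ℕ) : ℝ := ((1 - ga d)⁻¹) ^ d

lemma Ga_pos (d : ℕ) (hd : 0 < d) : 0 < Ga d := by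
  unfold Ga
  have := ga_lt d hd
  have : 0 < 1 - ga d := by linarith
  positivity

variable {ι : Type*} [Fintype ι] [DecidableEq ι]

lemma sum_level (L : ℕ) (g : ℝ) (hg0 : 0 < g) (hg1 : g < 1) :
    ∑ l ∈ Fintype.piFinset (fun _ : ι => range (L + 1)), ∏ i, g ^ (L - l i) ≤ ((1 - g)⁻¹) ^ Fintype.card ι := by
  have h := Finset.prod_univ_sum (fun _ : ι => range (L + 1)) (fun _ l => g ^ (L - l))
  rw [← h, prod_const, card_univ]
  apply pow_le_pow_left₀
  · exact sum_nonneg fun _ _ => by positivity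
  · have h1 : ∑ l ∈ range (L + 1), g ^ (L - l) = ∑ l ∈ range (L + 1), g ^ l := by
      rw [← sum_range_reflect]
      refine sum_congr rfl fun l hl => ?_
      congr 1
      rw [mem_range] at hl
      omega
    rw [h1]
    have h2 : Summable (fun n : ℕ => g ^ n) := summable_geometric_of_lt_one hg0.le hg1
    rw [← tsum_geometric_of_lt_one hg0.le hg1]
    exact h2.sum_le_tsum _ fun _ _ => by positivity

/-- the numerical inequality for one level -/
lemma level (L p : ℕ) (hp : 2 ≤ p) (l : ι → ℕ) (hl : ∀ i, l i ≤ L) [Nonempty ι] (c : (ι → ℕ) → ℕ)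
    (O : Finset (ι → ℕ)) (hc : ∀ j ∈ O, ∀ i, c j ≤ 2 ^ l i) (hsum : ∑ j ∈ O, c j = 2 ^ L) :
    (∑ j ∈ O, ((c j : ℕ) : ℝ) ^ p) ≤ (2 ^ L) ^ p * (∏ i, ga (Fintype.card ι) ^ (L - l i)) ^ (2 * p) *
      ∏ i, ga (Fintype.card ι) ^ (L - l i) := by
  set d := Fintype.card ι with hd
  have hd0 : 0 < d := Fintype.card_pos
  have hg0 := ga_pos d
  have hg1 := ga_lt d hd0
  have hg8 := ga_pow d hd0
  obtain ⟨i₀, hi₀⟩ := Finite.exists_min l
  set a := L - l i₀ with ha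
  have hla : l i₀ = L - a := by have := hl i₀; omega
  have haL : a ≤ L := by omega
  have h1 : (∑ j ∈ O, ((c j : ℕ) : ℝ) ^ p) ≤ ((2 : ℝ) ^ (L - a)) ^ (p - 1) * 2 ^ L := by
    have h2 : ∀ j ∈ O, ((c j : ℕ) : ℝ) ^ p ≤ ((2 : ℝ) ^ (L - a)) ^ (p - 1) * c j := by
      intro j hj
      have h3 : ((c j : ℕ) : ℝ) ≤ 2 ^ (L - a) := by
        have := hc j hj i₀
        rw [hla] at this
        exact_mod_cast this
      have h4 : ((c j : ℕ) : ℝ) ^ p = ((c j : ℕ) : ℝ) ^ (p - 1) * c j := by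
        rw [← pow_succ]; congr 1; omega
      rw [h4]
      apply mul_le_mul_of_nonneg_right _ (Nat.cast_nonneg _)
      exact pow_le_pow_left₀ (Nat.cast_nonneg _) h3 _
    refine (sum_le_sum h2).trans ?_
    rw [← mul_sum]
    have h5 : ∑ j ∈ O, ((c j : ℕ) : ℝ) = 2 ^ L := by exact_mod_cast hsum
    rw [h5]
  refine h1.trans ?_
  have h2 : ∏ i, ga d ^ (L - l i) = ga d ^ (∑ i, (L - l i)) := Finset.prod_pow_eq_pow_sum _ _ _
  have h2' : ((2 : ℝ) ^ L) ^ p * (∏ i, ga d ^ (L - l i)) ^ (2 * p) * ∏ i, ga d ^ (L - l i) =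
      (2 ^ L) ^ p * ga d ^ ((∑ i, (L - l i)) * (2 * p) + ∑ i, (L - l i)) := by
    rw [h2, pow_add, pow_mul (ga d) (∑ i, (L - l i)) (2 * p), mul_assoc]
  rw [h2']
  have h3 : ∑ i, (L - l i) ≤ d * a := by
    calc ∑ i, (L - l i) ≤ ∑ _i : ι, a := sum_le_sum fun i _ => by have := hi₀ i; omega
      _ = d * a := by rw [sum_const, card_univ, smul_eq_mul]
  have h4 : ga d ^ ((∑ i, (L - l i)) * (2 * p) + ∑ i, (L - l i)) ≥ ga d ^ (8 * d * (a * (p - 1))) := by
    apply pow_le_pow_of_le_one hg0.le hg1.le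
    have h5 : (∑ i, (L - l i)) * (2 * p) + ∑ i, (L - l i) = (∑ i, (L - l i)) * (2 * p + 1) := by ring
    rw [h5]
    calc (∑ i, (L - l i)) * (2 * p + 1) ≤ (d * a) * (2 * p + 1) := Nat.mul_le_mul_right _ h3
      _ ≤ (d * a) * (8 * (p - 1)) := Nat.mul_le_mul_left _ (by omega)
      _ = 8 * d * (a * (p - 1)) := by ring
  have h5 : ga d ^ (8 * d * (a * (p - 1))) = (2⁻¹ : ℝ) ^ (a * (p - 1)) := by rw [pow_mul, hg8]
  rw [h5] at h4
  have h6 : ((2 : ℝ) ^ (L - a)) ^ (p - 1) * 2 ^ L = (2 ^ L) ^ p * (2⁻¹ : ℝ) ^ (a * (p - 1)) := by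
    have e1 : (2 : ℝ) ^ L = 2 ^ (L - a) * 2 ^ a := by rw [← pow_add]; congr 1; omega
    have e2 : ((2 : ℝ) ^ L) ^ p = ((2 : ℝ) ^ L) ^ (p - 1) * 2 ^ L := by rw [← pow_succ]; congr 1; omega
    rw [e2]
    have e3 : ((2 : ℝ) ^ L) ^ (p - 1) = ((2 : ℝ) ^ (L - a)) ^ (p - 1) * 2 ^ (a * (p - 1)) := by
      rw [e1, mul_pow, ← pow_mul 2 a]
    rw [e3, inv_pow]
    have : (2 : ℝ) ^ (a * (p - 1)) ≠ 0 := by positivity
    field_simp
  rw [h6]
  exact mul_le_mul_of_nonneg_left h4 (by positivity)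

open Classical in
/-- **The maximal inequality** over all boxes of ranks. -/
theorem tail [Nonempty ι] (I : Finset ℤ) (L p : ℕ) (hp : 2 ≤ p) (r : ι → ℕ → ℕ)
    (hr : ∀ i, Set.InjOn (r i) (range (2 ^ L))) (ω : ℤ → ℕ → ℝ) (G θ u : ℝ) (hG : 1 ≤ G) (hθ : 0 ≤ θ) (hu : 1 ≤ u)
    (hmom : ∀ Q : Finset ℕ, Q ⊆ range (2 ^ L) → Q.Nonempty →
      ∑ D ∈ I, (∑ k ∈ Q, ω D k) ^ (2 * p) ≤ I.card * (2 * (G * Q.card) ^ p + θ)) :
    ∃ E : Finset ℤ, E ⊆ I ∧
      (E.card : ℝ) ≤ I.card * (2 * Ga (Fintype.card ι) / u ^ (2 * p) + (L + 1) ^ Fintype.card ι * 2 ^ L * θ) ∧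
      ∀ D ∈ I, D ∉ E → ∀ m : ι → ℕ, (∀ i, m i ≤ 2 ^ L) →
        |∑ k ∈ (range (2 ^ L)).filter (fun k => ∀ i, r i k < m i), ω D k| ≤ u * √G * √(2 ^ L) * Ga (Fintype.card ι) := by
  set d := Fintype.card ι with hd
  have hd0 : 0 < d := Fintype.card_pos
  have hg0 := ga_pos d
  have hg1 := ga_lt d hd0
  have hg8 := ga_pow d hd0
  have hsG : 1 ≤ √G := Real.one_le_sqrt.2 hG
  have hN : (0 : ℝ) < 2 ^ L := by positivity
  have hsN : 0 < √((2 : ℝ) ^ L) := Real.sqrt_pos.2 hN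
  set b : (ι → ℕ) → ℝ := fun l => u * √G * √(2 ^ L) * ∏ i, ga d ^ (L - l i) with hb
  have hb0 : ∀ l, 0 ≤ b l := fun l => by
    rw [hb]
    have : 0 ≤ ∏ i, ga d ^ (L - l i) := prod_nonneg fun _ _ => by positivity
    positivity
  have hb1 : ∀ l, 1 ≤ b l := by
    intro l
    have h1 : ga d ^ (d * L) ≤ ∏ i, ga d ^ (L - l i) := by
      rw [Finset.prod_pow_eq_pow_sum]
      apply pow_le_pow_of_le_one hg0.le hg1.le
      calc ∑ i, (L - l i) ≤ ∑ _i : ι, L := sum_le_sum fun i _ => Nat.sub_le _ _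
        _ = d * L := by rw [sum_const, card_univ, smul_eq_mul]
    have h2 : 1 ≤ √((2 : ℝ) ^ L) * ga d ^ (d * L) := by
      have h3 : (1 : ℝ) ^ 2 ≤ (√((2 : ℝ) ^ L) * ga d ^ (d * L)) ^ 2 := by
        rw [mul_pow, Real.sq_sqrt hN.le, ← pow_mul, one_pow]
        have h4 : ga d ^ (8 * d * L) ≤ ga d ^ (d * L * 2) := by
          apply pow_le_pow_of_le_one hg0.le hg1.le
          nlinarith
        have h5 : ga d ^ (8 * d * L) = (2⁻¹ : ℝ) ^ L := by rw [pow_mul, hg8]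
        rw [h5] at h4
        calc (1 : ℝ) = 2 ^ L * (2⁻¹ : ℝ) ^ L := by rw [← mul_pow]; norm_num
          _ ≤ 2 ^ L * ga d ^ (d * L * 2) := mul_le_mul_of_nonneg_left h4 hN.le
      exact (pow_le_pow_iff_left₀ (by norm_num) (by positivity) (by norm_num)).1 h3
    have h3 : √((2 : ℝ) ^ L) * ga d ^ (d * L) ≤ √((2 : ℝ) ^ L) * ∏ i, ga d ^ (L - l i) :=
      mul_le_mul_of_nonneg_left h1 hsN.le
    have h4 : 1 ≤ u * √G := by nlinarith
    rw [hb]
    show 1 ≤ u * √G * √(2 ^ L) * ∏ i, ga d ^ (L - l i)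
    rw [mul_assoc]
    nlinarith
  set P := Fintype.piFinset (fun _ : ι => range (L + 1)) with hP
  set Bad : (ι → ℕ) → (ι → ℕ) → Finset ℤ := fun l j => I.filter (fun D => b l < |∑ k ∈ cell r (2 ^ L) l j, ω D k|) with hBad
  refine ⟨P.biUnion (fun l => (occ r (2 ^ L) l).biUnion (Bad l)), ?_, ?_, ?_⟩
  · intro D hD
    obtain ⟨l, _, hD⟩ := mem_biUnion.1 hD
    obtain ⟨j, _, hD⟩ := mem_biUnion.1 hD
    exact (mem_filter.1 hD).1
  · -- the count
    have h1 : ∀ l j, ((Bad l j).card : ℝ) * b l ^ (2 * p) ≤ ∑ D ∈ I, (∑ k ∈ cell r (2 ^ L) l j, ω D k) ^ (2 * p) := by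
      intro l j
      calc ((Bad l j).card : ℝ) * b l ^ (2 * p) = ∑ D ∈ Bad l j, b l ^ (2 * p) := by rw [sum_const, nsmul_eq_mul]
        _ ≤ ∑ D ∈ Bad l j, (∑ k ∈ cell r (2 ^ L) l j, ω D k) ^ (2 * p) := by
            refine sum_le_sum fun D hD => ?_
            have h2 := (mem_filter.1 hD).2
            rw [← (even_two_mul p).pow_abs (a := ∑ k ∈ cell r (2 ^ L) l j, ω D k)]
            exact pow_le_pow_left₀ (hb0 l) h2.le _
        _ ≤ _ := sum_le_sum_of_subset_of_nonneg (filter_subset _ _) fun _ _ _ => (even_two_mul p).pow_nonneg _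
    have h2 : ∀ l ∈ P, (∑ j ∈ occ r (2 ^ L) l, ((Bad l j).card : ℝ)) ≤
        I.card * (2 / u ^ (2 * p) * (∏ i, ga d ^ (L - l i)) + 2 ^ L * θ) := by
      intro l hl
      have hl' : ∀ i, l i ≤ L := fun i => by
        have := mem_range.1 (Fintype.mem_piFinset.1 hl i); omega
      have hbp : 0 < b l ^ (2 * p) := by have := hb1 l; positivity
      have h3 : (∑ j ∈ occ r (2 ^ L) l, ((Bad l j).card : ℝ)) * b l ^ (2 * p) ≤
          I.card * (2 * G ^ p * (∑ j ∈ occ r (2 ^ L) l, ((cell r (2 ^ L) l j).card : ℝ) ^ p) + 2 ^ L * θ) := by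
        rw [sum_mul]
        have h4 : ∀ j ∈ occ r (2 ^ L) l, ((Bad l j).card : ℝ) * b l ^ (2 * p) ≤
            I.card * (2 * G ^ p * ((cell r (2 ^ L) l j).card : ℝ) ^ p + θ) := by
          intro j hj
          refine (h1 l j).trans ?_
          have h5 : (cell r (2 ^ L) l j).Nonempty := by
            obtain ⟨k, hk, hkj⟩ := mem_image.1 hj
            exact ⟨k, mem_filter.2 ⟨hk, fun i => congrFun hkj i⟩⟩
          have h6 := hmom (cell r (2 ^ L) l j) (filter_subset _ _) h5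
          rw [mul_pow, ← mul_assoc] at h6
          exact h6
        refine (sum_le_sum h4).trans ?_
        rw [← mul_sum, sum_add_distrib, ← mul_sum, sum_const, nsmul_eq_mul]
        apply mul_le_mul_of_nonneg_left _ (Nat.cast_nonneg _)
        have h5 : ((occ r (2 ^ L) l).card : ℝ) ≤ 2 ^ L := by exact_mod_cast occ_card r (2 ^ L) l
        have h6 := mul_le_mul_of_nonneg_right h5 hθ
        linarith
      have h4 := level L p hp l hl' (fun j => (cell r (2 ^ L) l j).card) (occ r (2 ^ L) l)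
        (fun j _ i => cell_le r (2 ^ L) hr l j i) (cell_sum r (2 ^ L) l)
      have h5 : b l ^ (2 * p) = u ^ (2 * p) * G ^ p * (2 ^ L) ^ p * (∏ i, ga d ^ (L - l i)) ^ (2 * p) := by
        rw [hb]
        show (u * √G * √(2 ^ L) * ∏ i, ga d ^ (L - l i)) ^ (2 * p) = _
        rw [mul_pow, mul_pow, mul_pow, pow_mul (√G), Real.sq_sqrt (by linarith), pow_mul (√((2 : ℝ) ^ L)), Real.sq_sqrt hN.le]
      have h6 : 2 * G ^ p * (∑ j ∈ occ r (2 ^ L) l, ((cell r (2 ^ L) l j).card : ℝ) ^ p) + 2 ^ L * θ ≤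
          (2 / u ^ (2 * p) * (∏ i, ga d ^ (L - l i)) + 2 ^ L * θ) * b l ^ (2 * p) := by
        rw [add_mul]
        refine add_le_add ?_ ?_
        · rw [h5]
          have hu0 : u ^ (2 * p) ≠ 0 := by positivity
          calc 2 * G ^ p * (∑ j ∈ occ r (2 ^ L) l, ((cell r (2 ^ L) l j).card : ℝ) ^ p)
              ≤ 2 * G ^ p * ((2 ^ L) ^ p * (∏ i, ga d ^ (L - l i)) ^ (2 * p) * ∏ i, ga d ^ (L - l i)) :=
                mul_le_mul_of_nonneg_left h4 (by positivity)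
            _ = _ := by field_simp
        · have h7 : 1 ≤ b l ^ (2 * p) := one_le_pow₀ (hb1 l)
          have h8 : 0 ≤ 2 ^ L * θ := by positivity
          nlinarith
      have h7 := mul_le_mul_of_nonneg_left h6 (Nat.cast_nonneg I.card : (0 : ℝ) ≤ I.card)
      rw [← mul_assoc] at h7
      exact le_of_mul_le_mul_right (h3.trans h7) hbp
    have h3 : ((P.biUnion (fun l => (occ r (2 ^ L) l).biUnion (Bad l))).card : ℝ) ≤
        ∑ l ∈ P, ∑ j ∈ occ r (2 ^ L) l, ((Bad l j).card : ℝ) := by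
      have h4 : (P.biUnion (fun l => (occ r (2 ^ L) l).biUnion (Bad l))).card ≤
          ∑ l ∈ P, ∑ j ∈ occ r (2 ^ L) l, (Bad l j).card :=
        card_biUnion_le.trans (sum_le_sum fun l _ => card_biUnion_le)
      exact_mod_cast h4
    refine h3.trans ((sum_le_sum h2).trans ?_)
    rw [← mul_sum, sum_add_distrib, ← mul_sum, sum_const, nsmul_eq_mul]
    apply mul_le_mul_of_nonneg_left _ (Nat.cast_nonneg _)
    have h4 := sum_level (ι := ι) L (ga d) hg0 hg1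
    rw [← hd] at h4
    have h5 : (P.card : ℝ) = (L + 1) ^ d := by
      rw [hP, Fintype.card_piFinset]
      simp [hd]
    rw [h5]
    have h6 : 2 / u ^ (2 * p) * ∑ l ∈ P, ∏ i, ga d ^ (L - l i) ≤ 2 / u ^ (2 * p) * Ga d :=
      mul_le_mul_of_nonneg_left h4 (by positivity)
    have h7 : 2 / u ^ (2 * p) * Ga d = 2 * Ga d / u ^ (2 * p) := by ring
    rw [h7] at h6
    have h8 : ((L : ℝ) + 1) ^ d * (2 ^ L * θ) = ((L : ℝ) + 1) ^ d * 2 ^ L * θ := by ring
    rw [h8]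
    linarith
  · intro D hD hDE m hm
    have h1 := chain r L (ω D) b (fun l hl j => by
      by_contra hcon
      push Not at hcon
      apply hDE
      have hj : j ∈ occ r (2 ^ L) l := by
        by_contra hj
        rw [cell_empty r (2 ^ L) l j hj] at hcon
        simp only [sum_empty, abs_zero] at hcon
        exact absurd hcon (not_lt.2 (hb0 l))
      exact mem_biUnion.2 ⟨l, hl, mem_biUnion.2 ⟨j, hj, mem_filter.2 ⟨hD, hcon⟩⟩⟩) m hm
    refine h1.trans ?_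
    rw [hb, ← mul_sum]
    have h4 := sum_level (ι := ι) L (ga d) hg0 hg1
    rw [← hd] at h4
    exact mul_le_mul_of_nonneg_left h4 (by positivity)

end

end Pool.Agent.J4.H33.UL
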