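import Mathlib
import Pool.Agent.J4.H33.UL.Exp
import Pool.Agent.J4.H33.UL.Tail

set_option autoImplicit false

/-! # The exceptional set of one dyadic level -/

namespace Pool.Agent.J4.H33.UL

open Finset Pool.Agent.J4.H33.LIL Pool.Agent.J4.H33.GL Pool.Agent.W406.TW

noncomputable section

variable {s : ℕ}

/-- the coordinates: the index and the ranks -/
def rr (x : ℕ → ℝ) (σ : Finset (Fin s)) (L : ℕ) : Option (Fin s) → ℕ → ℕ
  | none, k => k
  | some i, k => rank (range (2 ^ L)) (yy x σ i) k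

open Classical in
/-- the thresholds -/
def mm (x : ℕ → ℝ) (σ : Finset (Fin s)) (L : ℕ) (w : Fin s → ℝ) (K : ℕ) : Option (Fin s) → ℕ
  | none => K
  | some i => ((range (2 ^ L)).filter (fun j => yy x σ i j < w i)).card

lemma rr_inj (x : ℕ → ℝ) (σ : Finset (Fin s)) (L : ℕ) (i : Option (Fin s)) : Set.InjOn (rr x σ L i) (range (2 ^ L)) := by
  intro a ha b hb hab
  cases i with
  | none => exact hab
  | some i => exact rank_inj (mem_coe.1 ha) (mem_coe.1 hb) hab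

lemma mm_le (x : ℕ → ℝ) (σ : Finset (Fin s)) (L : ℕ) (w : Fin s → ℝ) {K : ℕ} (hK : K ≤ 2 ^ L) (i : Option (Fin s)) :
    mm x σ L w K i ≤ 2 ^ L := by
  classical
  cases i with
  | none => exact hK
  | some i =>
    have := card_filter_le (range (2 ^ L)) (fun j => yy x σ i j < w i)
    rw [card_range] at this
    exact this

lemma rr_iff (x : ℕ → ℝ) (σ : Finset (Fin s)) (L : ℕ) (w : Fin s → ℝ) (K : ℕ) (k : ℕ) (hk : k ∈ range (2 ^ L)) :
    (∀ i, rr x σ L i k < mm x σ L w K i) ↔ (k < K ∧ ∀ i, yy x σ i k < w i) := by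
  classical
  rw [Option.forall]
  constructor
  · rintro ⟨h1, h2⟩
    exact ⟨h1, fun i => (rank_thr (range (2 ^ L)) (yy x σ i) (w i) k hk).2 (h2 i)⟩
  · rintro ⟨h1, h2⟩
    exact ⟨h1, fun i => (rank_thr (range (2 ^ L)) (yy x σ i) (w i) k hk).1 (h2 i)⟩

open Classical in
lemma sum_rr (x : ℕ → ℝ) (σ : Finset (Fin s)) (L : ℕ) (w : Fin s → ℝ) {K : ℕ} (hK : K ≤ 2 ^ L) (ω : ℕ → ℝ) :
    ∑ k ∈ range K, cc x σ w k * ω k = ∑ k ∈ (range (2 ^ L)).filter (fun k => ∀ i, rr x σ L i k < mm x σ L w K i), ω k := by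
  have h1 : (range (2 ^ L)).filter (fun k => ∀ i, rr x σ L i k < mm x σ L w K i) =
      (range K).filter (fun k => ∀ i, yy x σ i k < w i) := by
    ext k
    simp only [mem_filter]
    constructor
    · rintro ⟨h2, h3⟩
      have h4 := (rr_iff x σ L w K k h2).1 h3
      exact ⟨mem_range.2 h4.1, h4.2⟩
    · rintro ⟨h2, h3⟩
      have h4 := mem_range.1 h2
      have h5 : k ∈ range (2 ^ L) := mem_range.2 (by omega)
      exact ⟨h5, (rr_iff x σ L w K k h5).2 ⟨h4, h3⟩⟩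
  rw [h1, sum_filter]
  refine sum_congr rfl fun k _ => ?_
  unfold cc
  split_ifs <;> ring

/-- **The exceptional set of one dyadic level.** -/
theorem lev (s : ℕ) (x : ℕ → ℝ) (L p X : ℕ) (hp : 2 ≤ p) (hX : ∀ k < 2 ^ L + s, pr k ≤ X) (hX1 : 1 ≤ X) (M : ℤ) (H : ℕ)
    (hH : 0 < H) (u : ℝ) (hu : 1 ≤ u) :
    ∃ E : Finset ℤ, E ⊆ Ico M (M + H) ∧
      (E.card : ℝ) ≤ 4 ^ s * (H * (2 * Ga (s + 1) / u ^ (2 * p) +
        (L + 1) ^ (s + 1) * 2 ^ L * ((2 ^ L) ^ (2 * p) * ((X : ℝ) ^ (2 * p * s) / H)))) ∧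
      ∀ D ∈ Ico M (M + H), D ∉ E → ∀ σ T : Finset (Fin s), T.Nonempty → ∀ w : Fin s → ℝ, ∀ K ≤ 2 ^ L,
        |∑ k ∈ range K, cc x σ w k * win (T.map Fin.valEmbedding) D k| ≤
          u * √(2 * Real.exp 1 * p) * √(2 ^ L) * Ga (s + 1) := by
  classical
  have hcard : Fintype.card (Option (Fin s)) = s + 1 := by rw [Fintype.card_option, Fintype.card_fin]
  have hGa : 0 < Ga (s + 1) := Ga_pos _ (Nat.succ_pos _)
  have hIc : ((Ico M (M + (H : ℤ))).card : ℝ) = H := by simp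
  set R : ℝ := H * (2 * Ga (s + 1) / u ^ (2 * p) +
        (L + 1) ^ (s + 1) * 2 ^ L * ((2 ^ L) ^ (2 * p) * ((X : ℝ) ^ (2 * p * s) / H))) with hR
  have hR0 : 0 ≤ R := by rw [hR]; positivity
  have h1 : ∀ σT : Finset (Fin s) × Finset (Fin s), ∃ E : Finset ℤ, E ⊆ Ico M (M + H) ∧ (E.card : ℝ) ≤ R ∧
      (σT.2.Nonempty → ∀ D ∈ Ico M (M + H), D ∉ E → ∀ w : Fin s → ℝ, ∀ K ≤ 2 ^ L,
        |∑ k ∈ range K, cc x σT.1 w k * win (σT.2.map Fin.valEmbedding) D k| ≤
          u * √(2 * Real.exp 1 * p) * √(2 ^ L) * Ga (s + 1)) := by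
    rintro ⟨σ, T⟩
    by_cases hT : T.Nonempty
    · have hG : (1 : ℝ) ≤ 2 * Real.exp 1 * p := by
        have h2 : (2 : ℝ) ≤ p := by exact_mod_cast hp
        have h3 : (1 : ℝ) ≤ Real.exp 1 := Real.one_le_exp (by norm_num)
        nlinarith
      have h2 := tail (ι := Option (Fin s)) (Ico M (M + (H : ℤ))) L p hp (rr x σ L) (rr_inj x σ L)
        (fun D k => win (T.map Fin.valEmbedding) D k) (2 * Real.exp 1 * p)
        ((2 ^ L) ^ (2 * p) * ((X : ℝ) ^ (2 * p * s) / H)) u hG (by positivity) hu (fun Q hQ hQ0 => by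
          have h3 := win_mom (T.map Fin.valEmbedding) s (by simpa using hT) (fun i hi => by
            obtain ⟨j, _, rfl⟩ := mem_map.1 hi
            exact j.2) (2 ^ L) X hX hX1 p (by omega) M H hH Q hQ hQ0
          rw [hIc]
          push_cast at h3
          exact h3)
      rw [hcard, hIc] at h2
      obtain ⟨E, hE1, hE2, hE3⟩ := h2
      refine ⟨E, hE1, ?_, ?_⟩
      · refine hE2.trans (le_of_eq ?_)
        rw [hR]
      · intro _ D hD hDE w K hK
        rw [sum_rr x σ L w hK]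
        exact hE3 D hD hDE (mm x σ L w K) (mm_le x σ L w hK)
    · refine ⟨∅, empty_subset _, by simpa using hR0, fun h => absurd h hT⟩
  choose E hE1 hE2 hE3 using h1
  refine ⟨univ.biUnion E, ?_, ?_, ?_⟩
  · intro D hD
    obtain ⟨σT, _, h⟩ := mem_biUnion.1 hD
    exact hE1 σT h
  · have h2 : ((univ.biUnion E).card : ℝ) ≤ ∑ σT : Finset (Fin s) × Finset (Fin s), ((E σT).card : ℝ) := by
      exact_mod_cast card_biUnion_le
    refine h2.trans ((sum_le_sum fun σT _ => hE2 σT).trans ?_)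
    rw [sum_const, card_univ, Fintype.card_prod, Fintype.card_finset, Fintype.card_fin, nsmul_eq_mul]
    apply le_of_eq
    push_cast
    rw [← mul_pow]
    norm_num
  · intro D hD hDE σ T hT w K hK
    exact hE3 (σ, T) hT D hD (fun h => hDE (mem_biUnion.2 ⟨(σ, T), mem_univ _, h⟩)) w K hK

end

end Pool.Agent.J4.H33.UL
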