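import Mathlib
import Pool.Agent.J4.H33.UL.Lev
import Pool.Agent.J4.H33.GL.Prep

set_option autoImplicit false

/-! # The choice of the parameters -/

namespace Pool.Agent.J4.H33.UL

open Finset Pool.Agent.J4.H33.LIL Pool.Agent.J4.H33.GL Pool.Agent.W406.TW

noncomputable section

lemma sqrt_two_pow {L : ℕ} (hL : 3 ≤ L) : ((L : ℝ) + 3) * L ^ 2 ≤ 400 * √((2 : ℝ) ^ L) := by
  have h0 : (3 : ℝ) ≤ L := by exact_mod_cast hL
  have h1 : √((2 : ℝ) ^ L) = Real.exp (L * Real.log 2 / 2) := by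
    rw [Real.sqrt_eq_iff_mul_self_eq (by positivity) (by positivity), ← Real.exp_add, add_halves, Real.exp_nat_mul,
      Real.exp_log (by norm_num)]
  rw [h1]
  have h2 := Real.log_two_gt_d9
  have h3 : (L * 0.34 : ℝ) ≤ L * Real.log 2 / 2 := by nlinarith
  have h4 := Real.pow_div_factorial_le_exp (L * 0.34 : ℝ) (by positivity) 3
  have h5 : Real.exp (L * 0.34 : ℝ) ≤ Real.exp (L * Real.log 2 / 2) := Real.exp_le_exp.2 h3
  have h6 : ((3 : ℕ).factorial : ℝ) = 6 := by norm_num [Nat.factorial]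
  rw [h6] at h4
  have h7 : ((L : ℝ) + 3) * L ^ 2 ≤ 2 * (L : ℝ) ^ 3 := by nlinarith [sq_nonneg (L : ℝ)]
  have h8 : (L * 0.34 : ℝ) ^ 3 / 6 = (L : ℝ) ^ 3 * (0.34 ^ 3 / 6) := by ring
  rw [h8] at h4
  have h9 : (0 : ℝ) < (L : ℝ) ^ 3 := by positivity
  nlinarith

/-- the size of the error term -/
lemma size (s L t : ℕ) (hs : 1 ≤ s) (ht : 1 ≤ t) (hL : s + 3 ≤ L) (H : ℕ) (hH : 2 ^ (20 * L * (t + 1) * s) ≤ H) :
    2 ^ t * L ^ 2 * ((L + 1) ^ (s + 1) * 2 ^ L * ((2 ^ L) ^ (2 * (t + 1)) * (36 * (2 ^ L + s) ^ 2) ^ (2 * (t + 1) * s))) ≤ H := by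
  refine le_trans ?_ hH
  obtain ⟨p, hp⟩ : ∃ p, p = t + 1 := ⟨_, rfl⟩
  rw [← hp]
  have hp2 : 2 ≤ p := by omega
  have htp : t ≤ p := by omega
  have hl : L + 1 ≤ 2 ^ L := Nat.lt_two_pow_self
  have h1 : L ^ 2 ≤ 2 ^ (2 * L) := by
    calc L ^ 2 ≤ (2 ^ L) ^ 2 := Nat.pow_le_pow_left (by omega) 2
      _ = 2 ^ (2 * L) := by rw [← pow_mul, mul_comm]
  have h2 : (L + 1) ^ (s + 1) ≤ 2 ^ (L * (s + 1)) := by
    calc (L + 1) ^ (s + 1) ≤ (2 ^ L) ^ (s + 1) := Nat.pow_le_pow_left hl _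
      _ = _ := by rw [← pow_mul]
  have h3 : 36 * (2 ^ L + s) ^ 2 ≤ 2 ^ (5 * L) := by
    have h4 : 2 ^ L + s ≤ 2 * 2 ^ L := by omega
    calc 36 * (2 ^ L + s) ^ 2 ≤ 36 * (2 * 2 ^ L) ^ 2 := Nat.mul_le_mul_left _ (Nat.pow_le_pow_left h4 2)
      _ = 144 * 2 ^ (2 * L) := by rw [mul_pow, ← pow_mul, mul_comm L 2]; ring
      _ ≤ 2 ^ (3 * L) * 2 ^ (2 * L) := by
          apply Nat.mul_le_mul_right
          calc 144 ≤ 2 ^ 9 := by norm_num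
            _ ≤ 2 ^ (3 * L) := Nat.pow_le_pow_right (by norm_num) (by omega)
      _ = 2 ^ (5 * L) := by rw [← pow_add]; congr 1; ring
  have h4 : (36 * (2 ^ L + s) ^ 2) ^ (2 * p * s) ≤ 2 ^ (5 * L * (2 * p * s)) := by
    rw [pow_mul 2 (5 * L)]
    exact Nat.pow_le_pow_left h3 _
  calc 2 ^ t * L ^ 2 * ((L + 1) ^ (s + 1) * 2 ^ L * ((2 ^ L) ^ (2 * p) * (36 * (2 ^ L + s) ^ 2) ^ (2 * p * s)))
      ≤ 2 ^ t * 2 ^ (2 * L) * (2 ^ (L * (s + 1)) * 2 ^ L * ((2 ^ L) ^ (2 * p) * 2 ^ (5 * L * (2 * p * s)))) :=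
        Nat.mul_le_mul (Nat.mul_le_mul_left _ h1) (Nat.mul_le_mul (Nat.mul_le_mul_right _ h2) (Nat.mul_le_mul_left _ h4))
    _ = 2 ^ (t + 2 * L + (L * (s + 1) + L + (L * (2 * p) + 5 * L * (2 * p * s)))) := by
        rw [← pow_mul, ← pow_add, ← pow_add, ← pow_add, ← pow_add, ← pow_add]
    _ ≤ 2 ^ (20 * L * p * s) := by
        apply Nat.pow_le_pow_right (by norm_num)
        have h5 : t + 2 * L + (L * (s + 1) + L + (L * (2 * p) + 5 * L * (2 * p * s))) ≤ L * (t + s + 4 + 2 * p + 10 * (p * s)) := by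
          have : t ≤ L * t := Nat.le_mul_of_pos_left _ (by omega)
          calc t + 2 * L + (L * (s + 1) + L + (L * (2 * p) + 5 * L * (2 * p * s)))
              ≤ L * t + 2 * L + (L * (s + 1) + L + (L * (2 * p) + 5 * L * (2 * p * s))) := by omega
            _ = _ := by ring
        have h6 : 20 * L * p * s = L * (20 * (p * s)) := by ring
        rw [h6]
        refine h5.trans ?_
        apply Nat.mul_le_mul_left
        have h7 : p ≤ p * s := Nat.le_mul_of_pos_right _ (by omega)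
        have h8 : 2 * s ≤ p * s := Nat.mul_le_mul_right _ hp2
        omega

/-- **The exceptional set of one dyadic level for the characters.** -/
theorem lev2 (s : ℕ) (hs : 1 ≤ s) : ∃ c : ℝ, 0 < c ∧ ∀ (x : ℕ → ℝ) (L t : ℕ), s + 3 ≤ L → 1 ≤ t → ∀ (M : ℤ) (H : ℕ),
    2 ^ (20 * L * (t + 1) * s) ≤ H → ∃ E : Finset ℤ, (E.card : ℝ) ≤ H * (c * (1 / 2) ^ t * ((L : ℝ) ^ 2)⁻¹) ∧
      ∀ D ∈ Ico M (M + H), D ∉ E →
        ∀ σ T : Finset (Fin s), T.Nonempty → ∀ w : Fin s → ℝ, ∀ K ≤ 2 ^ L,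
        |∑ k ∈ range K, cc x σ w k * win (T.map Fin.valEmbedding) D k| ≤
          (Real.exp 1 * (L : ℝ) ^ (1 / (t : ℝ))) * √(2 * Real.exp 1 * ((t + 1 : ℕ) : ℝ)) * √(2 ^ L) * Ga (s + 1) := by
  classical
  have hGa : 0 < Ga (s + 1) := Ga_pos _ (Nat.succ_pos _)
  refine ⟨4 ^ s * (2 * Ga (s + 1) + 1), by positivity, ?_⟩
  intro x L t hL ht M H hH
  have hH0 : 0 < H := lt_of_lt_of_le (by positivity) hH
  have hH0' : (0 : ℝ) < H := by exact_mod_cast hH0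
  have hL3 : 3 ≤ L := by omega
  have hLr : (3 : ℝ) ≤ L := by exact_mod_cast hL3
  have htr : (1 : ℝ) ≤ t := by exact_mod_cast ht
  have hsL : s ≤ 2 ^ L := by
    have : L < 2 ^ L := Nat.lt_two_pow_self
    omega
  have hN : 6 ≤ 2 ^ L + s := by
    have : 2 ^ 3 ≤ 2 ^ L := Nat.pow_le_pow_right (by norm_num) hL3
    omega
  have hX : ∀ k < 2 ^ L + s, pr k ≤ 36 * (2 ^ L + s) ^ 2 := by
    intro k hk
    have h1 : pr k ≤ pr (2 ^ L + s) := by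
      unfold pr
      exact Nat.nth_monotone Nat.infinite_setOfPred_prime hk.le
    have h2 := pr_le hN
    have h3 : pr (2 ^ L + s) ≤ 36 * (2 ^ L + s) ^ 2 := by exact_mod_cast h2
    exact h1.trans h3
  have he1 : (1 : ℝ) ≤ Real.exp 1 := Real.one_le_exp (by norm_num)
  have hLt : (1 : ℝ) ≤ (L : ℝ) ^ (1 / (t : ℝ)) := Real.one_le_rpow (by linarith) (by positivity)
  obtain ⟨E₁, hE1, hE2, hE3⟩ := lev s x L (t + 1) (36 * (2 ^ L + s) ^ 2) (by omega) hX (Nat.succ_le_of_lt (by positivity))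
    M H hH0 (Real.exp 1 * (L : ℝ) ^ (1 / (t : ℝ))) (one_le_mul_of_one_le_of_one_le he1 hLt)
  refine ⟨E₁, ?_, hE3⟩
  have hL2 : (0 : ℝ) < (L : ℝ) ^ 2 := by positivity
  refine hE2.trans ?_
  have h2 : 2 * Ga (s + 1) / (Real.exp 1 * (L : ℝ) ^ (1 / (t : ℝ))) ^ (2 * (t + 1)) ≤ 2 * Ga (s + 1) * ((1 / 2) ^ t * ((L : ℝ) ^ 2)⁻¹) := by
    rw [div_eq_mul_inv]
    apply mul_le_mul_of_nonneg_left _ (by positivity)
    have h3 : (1 / 2 : ℝ) ^ t * ((L : ℝ) ^ 2)⁻¹ = (2 ^ t * (L : ℝ) ^ 2)⁻¹ := by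
      rw [mul_inv, one_div, inv_pow]
    rw [h3]
    apply inv_anti₀ (by positivity)
    rw [mul_pow]
    apply mul_le_mul
    · have h4 : (2 : ℝ) ≤ Real.exp 1 := by have := Real.exp_one_gt_d9; linarith
      calc (2 : ℝ) ^ t ≤ Real.exp 1 ^ t := pow_le_pow_left₀ (by norm_num) h4 _
        _ ≤ Real.exp 1 ^ (2 * (t + 1)) := pow_le_pow_right₀ he1 (by omega)
    · have h4 : ((L : ℝ) ^ (1 / (t : ℝ))) ^ (2 * t) = (L : ℝ) ^ 2 := by
        rw [← Real.rpow_natCast, ← Real.rpow_mul (by positivity)]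
        have : 1 / (t : ℝ) * ((2 * t : ℕ) : ℝ) = 2 := by push_cast; field_simp
        rw [this]; norm_cast
      rw [← h4]
      exact pow_le_pow_right₀ hLt (by omega)
    · positivity
    · positivity
  have h3 : ((L : ℝ) + 1) ^ (s + 1) * 2 ^ L * ((2 ^ L) ^ (2 * (t + 1)) * (((36 * (2 ^ L + s) ^ 2 : ℕ) : ℝ) ^ (2 * (t + 1) * s) / H)) ≤
      (1 / 2) ^ t * ((L : ℝ) ^ 2)⁻¹ := by
    have h4 := size s L t hs ht hL H hH
    have h5 : (2 : ℝ) ^ t * (L : ℝ) ^ 2 * (((L : ℝ) + 1) ^ (s + 1) * 2 ^ L * ((2 ^ L) ^ (2 * (t + 1)) * ((36 * (2 ^ L + s) ^ 2 : ℕ) : ℝ) ^ (2 * (t + 1) * s))) ≤ H := by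
      exact_mod_cast h4
    have h3' : (1 / 2 : ℝ) ^ t * ((L : ℝ) ^ 2)⁻¹ = (2 ^ t * (L : ℝ) ^ 2)⁻¹ := by
      rw [mul_inv, one_div, inv_pow]
    rw [h3', ← one_div, le_div_iff₀ (by positivity)]
    have h6 : ((L : ℝ) + 1) ^ (s + 1) * 2 ^ L * ((2 ^ L) ^ (2 * (t + 1)) * (((36 * (2 ^ L + s) ^ 2 : ℕ) : ℝ) ^ (2 * (t + 1) * s) / H)) * (2 ^ t * (L : ℝ) ^ 2) =
        (2 ^ t * (L : ℝ) ^ 2 * (((L : ℝ) + 1) ^ (s + 1) * 2 ^ L * ((2 ^ L) ^ (2 * (t + 1)) * ((36 * (2 ^ L + s) ^ 2 : ℕ) : ℝ) ^ (2 * (t + 1) * s)))) / H := by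
      ring
    rw [h6, div_le_one hH0']
    exact h5
  have h4 := add_le_add h2 h3
  have h5 := mul_le_mul_of_nonneg_left h4 hH0'.le
  have h6 := mul_le_mul_of_nonneg_left h5 (show (0 : ℝ) ≤ 4 ^ s by positivity)
  refine h6.trans (le_of_eq ?_)
  ring

/-- **The exceptional set of one dyadic level for the prime factors.** -/
theorem lev3 (s L : ℕ) (hL : s + 3 ≤ L) (M : ℤ) (H : ℕ) (hH : 2 ^ (L + 1) ≤ H) :
    (((Ico M (M + (H : ℤ))).filter (fun D => √((2 : ℝ) ^ L) < om (2 ^ L + s) D)).card : ℝ) ≤ H * (400 * ((L : ℝ) ^ 2)⁻¹) := by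
  have hH0 : 0 < H := lt_of_lt_of_le (by positivity) hH
  have hH0' : (0 : ℝ) < H := by exact_mod_cast hH0
  have hL3 : 3 ≤ L := by omega
  have hLr : (3 : ℝ) ≤ L := by exact_mod_cast hL3
  have hL2 : (0 : ℝ) < (L : ℝ) ^ 2 := by positivity
  have hsL : s ≤ 2 ^ L := by
    have : L < 2 ^ L := Nat.lt_two_pow_self
    omega
  have hsq : 0 < √((2 : ℝ) ^ L) := Real.sqrt_pos.2 (by positivity)
  refine (few_om (2 ^ L + s) M H hsq).trans ?_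
  have h3 : Real.log ((2 ^ L + s : ℕ) : ℝ) ≤ L + 1 := by
    have h4 : ((2 ^ L + s : ℕ) : ℝ) ≤ 2 ^ (L + 1) := by
      have : 2 ^ L + s ≤ 2 ^ (L + 1) := by rw [pow_succ]; omega
      exact_mod_cast this
    have h5 := Real.log_le_log (by positivity) h4
    rw [Real.log_pow] at h5
    have h6 := Real.log_two_lt_d9
    push_cast at h5
    have h7 : ((L : ℝ) + 1) * Real.log 2 ≤ (L + 1) * 1 := mul_le_mul_of_nonneg_left (by linarith) (by positivity)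
    push_cast
    linarith
  have h4 : ((2 ^ L + s : ℕ) : ℝ) ≤ H := by
    have h5 : 2 ^ L + s ≤ 2 ^ (L + 1) := by rw [pow_succ]; omega
    exact_mod_cast h5.trans hH
  have h5 := sqrt_two_pow hL3
  have h6 : (H : ℝ) * (1 + Real.log ((2 ^ L + s : ℕ) : ℝ)) + ((2 ^ L + s : ℕ) : ℝ) ≤ H * (L + 3) := by
    have := mul_le_mul_of_nonneg_left h3 hH0'.le
    nlinarith
  refine (div_le_div_of_nonneg_right h6 hsq.le).trans ?_
  rw [div_le_iff₀ hsq]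
  have h7 : (H : ℝ) * (400 * ((L : ℝ) ^ 2)⁻¹) * √(2 ^ L) = H * (((L : ℝ) ^ 2)⁻¹ * (400 * √(2 ^ L))) := by ring
  rw [h7]
  apply mul_le_mul_of_nonneg_left _ hH0'.le
  rw [← div_eq_inv_mul, le_div_iff₀ hL2]
  exact h5

end

end Pool.Agent.J4.H33.UL
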