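import Mathlib
import Pool.Agent.J4.H33.UL.Par

set_option autoImplicit false

/-! # The upper half of the law of the iterated logarithm for the boxes -/

namespace Pool.Agent.J4.H33.UL

open Finset Pool.Agent.J4.H33.LIL Pool.Agent.J4.H33.GL Pool.Agent.W406.TW

noncomputable section

variable {s : ℕ}

open Classical in
/-- The number of `k < K` with `a i ≤ y i k < b i` for all `i`. -/
def cnt (s K : ℕ) (y : Fin s → ℕ → ℝ) (a b : Fin s → ℝ) : ℕ :=
  ((range K).filter (fun k => ∀ i, a i ≤ y i k ∧ y i k < b i)).card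

open Classical in
lemma incl (y a b : Fin s → ℝ) (hab : ∀ i, a i ≤ b i) : (if ∀ i, a i ≤ y i ∧ y i < b i then (1 : ℝ) else 0) =
    ∑ T : Finset (Fin s), (-1 : ℝ) ^ T.card * (if ∀ i, y i < (if i ∈ T then a i else b i) then 1 else 0) := by
  have h1 : (if ∀ i, a i ≤ y i ∧ y i < b i then (1 : ℝ) else 0) =
      ∏ i : Fin s, ((if y i < b i then (1 : ℝ) else 0) - (if y i < a i then 1 else 0)) := by
    by_cases h : ∀ i, a i ≤ y i ∧ y i < b i
    · rw [if_pos h, prod_eq_one]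
      intro i _
      rw [if_pos (h i).2, if_neg (not_lt.2 (h i).1), sub_zero]
    · rw [if_neg h]
      push Not at h
      obtain ⟨i, hi⟩ := h
      refine (prod_eq_zero (mem_univ i) ?_).symm
      by_cases h2 : a i ≤ y i
      · rw [if_neg (not_lt.2 (hi h2)), if_neg (not_lt.2 h2), sub_zero]
      · push Not at h2
        rw [if_pos (lt_of_lt_of_le h2 (hab i)), if_pos h2, sub_self]
  rw [h1, Finset.prod_sub, powerset_univ]
  refine sum_congr rfl fun T _ => ?_
  rw [mul_assoc]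
  congr 1
  by_cases h : ∀ i, y i < (if i ∈ T then a i else b i)
  · rw [if_pos h, prod_eq_one, prod_eq_one, mul_one]
    · intro i hi
      have := h i
      rw [if_pos hi] at this
      rw [if_pos this]
    · intro i hi
      have := h i
      rw [if_neg (mem_sdiff.1 hi).2] at this
      rw [if_pos this]
  · rw [if_neg h]
    push Not at h
    obtain ⟨i, hi⟩ := h
    by_cases h2 : i ∈ T
    · rw [if_pos h2] at hi
      rw [prod_eq_zero (i := i) (s := T) h2 (if_neg (not_lt.2 hi)), mul_zero]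
    · rw [if_neg h2] at hi
      rw [prod_eq_zero (i := i) (s := univ \ T) (mem_sdiff.2 ⟨mem_univ _, h2⟩) (if_neg (not_lt.2 hi)), zero_mul]

open Classical in
lemma cnt_eq (K : ℕ) (x : ℕ → ℝ) (σ : Finset (Fin s)) (a b : Fin s → ℝ) (hab : ∀ i, a i ≤ b i) :
    (cnt s K (yy x σ) a b : ℝ) = ∑ T : Finset (Fin s), (-1 : ℝ) ^ T.card *
      ∑ k ∈ range K, cc x σ (fun i => if i ∈ T then a i else b i) k := by
  unfold cnt
  rw [← sum_boole]
  simp only [mul_sum]
  rw [sum_comm]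
  refine sum_congr rfl fun k _ => ?_
  rw [incl (fun i => yy x σ i k) a b hab]
  rfl

/-- from the anchored boxes to all boxes -/
lemma all_boxes (K : ℕ) (x X : ℕ → ℝ) (R : ℝ) (hR0 : 0 ≤ R)
    (h : ∀ w : Fin s → ℝ, |∑ k ∈ range K, cc X ∅ w k - (1 / 2 ^ s) * ∑ σ : Finset (Fin s), ∑ k ∈ range K, cc x σ w k| ≤ R)
    (a b : Fin s → ℝ) :
    |(cnt s K (yy X ∅) a b : ℝ) - (1 / 2 ^ s) * ∑ σ : Finset (Fin s), (cnt s K (yy x σ) a b : ℝ)| ≤ 2 ^ s * R := by
  classical
  by_cases hab : ∀ i, a i ≤ b i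
  · rw [cnt_eq K X ∅ a b hab]
    simp only [cnt_eq K x _ a b hab]
    rw [sum_comm]
    rw [mul_sum, ← sum_sub_distrib]
    refine (abs_sum_le_sum_abs _ _).trans ?_
    have h1 : ∀ T ∈ (univ : Finset (Finset (Fin s))), |(-1 : ℝ) ^ T.card * ∑ k ∈ range K, cc X ∅ (fun i => if i ∈ T then a i else b i) k -
        (1 / 2 ^ s) * ∑ σ : Finset (Fin s), (-1 : ℝ) ^ T.card * ∑ k ∈ range K, cc x σ (fun i => if i ∈ T then a i else b i) k| ≤ R := by
      intro T _
      rw [← mul_sum, mul_left_comm, ← mul_sub, abs_mul, abs_pow, abs_neg, abs_one, one_pow, one_mul]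
      exact h _
    refine (sum_le_sum h1).trans ?_
    rw [sum_const, card_univ, Fintype.card_finset, Fintype.card_fin, nsmul_eq_mul]
    push_cast
    exact le_rfl
  · push Not at hab
    obtain ⟨i, hi⟩ := hab
    have h1 : ∀ y : Fin s → ℕ → ℝ, cnt s K y a b = 0 := by
      intro y
      unfold cnt
      rw [card_eq_zero, filter_eq_empty_iff]
      intro k _ hcon
      have := hcon i
      linarith
    simp only [h1]
    simp only [Nat.cast_zero, sum_const_zero, mul_zero, sub_self, abs_zero]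
    positivity

/-- the dyadic level of `K` -/
lemma dyadic {K : ℕ} (hK : 16 < K) : ∃ L : ℕ, 4 ≤ L ∧ K ≤ 2 ^ L ∧ 2 ^ L ≤ 2 * K ∧ (L : ℝ) ≤ 2 * Real.log K ∧
    1 ≤ Real.log (Real.log K) ∧ 1 ≤ Real.log K := by
  set L := Nat.clog 2 K with hL
  have h1 : K ≤ 2 ^ L := Nat.le_pow_clog (by norm_num) K
  have h2 : 2 ^ (L - 1) < K := Nat.pow_pred_clog_lt_self (by norm_num) (by omega)
  have hL5 : 5 ≤ L := by
    by_contra hcon
    have : 2 ^ L ≤ 2 ^ 4 := Nat.pow_le_pow_right (by norm_num) (by omega)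
    omega
  have hLr : (5 : ℝ) ≤ L := by exact_mod_cast hL5
  have hKr : (16 : ℝ) < K := by exact_mod_cast hK
  have hK0 : (0 : ℝ) < K := by linarith
  have h3 : 2 ^ L ≤ 2 * K := by
    have : 2 ^ L = 2 * 2 ^ (L - 1) := by
      rw [← pow_succ']; congr 1; omega
    omega
  have hlog2 := Real.log_two_gt_d9
  have h4 : ((L : ℝ) - 1) * Real.log 2 ≤ Real.log K := by
    have h5 : ((2 : ℝ)) ^ (L - 1) ≤ K := by exact_mod_cast h2.le
    have h6 := Real.log_le_log (by positivity) h5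
    rw [Real.log_pow] at h6
    have h7 : ((L - 1 : ℕ) : ℝ) = L - 1 := by
      rw [Nat.cast_sub (by omega)]; norm_num
    rw [h7] at h6
    exact h6
  have h5 : (L : ℝ) ≤ 2 * Real.log K := by nlinarith
  have h6 : Real.exp 1 ≤ Real.log K := by
    have h7 : Real.log 16 ≤ Real.log K := Real.log_le_log (by norm_num) hKr.le
    have h8 : Real.log 16 = 4 * Real.log 2 := by
      rw [show (16 : ℝ) = 2 ^ 4 by norm_num, Real.log_pow]; norm_num
    have := Real.exp_one_lt_d9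
    linarith
  have hlK : 0 < Real.log K := lt_of_lt_of_le (Real.exp_pos 1) h6
  have h7 : 1 ≤ Real.log (Real.log K) := by
    rw [Real.le_log_iff_exp_le hlK]
    exact h6
  have := Real.one_le_exp (show (0 : ℝ) ≤ 1 by norm_num)
  exact ⟨L, by omega, h1, h3, h5, h7, by linarith⟩

open Classical in
/-- **The counts in the boxes for almost all twists, with all the moments.** -/
theorem upper (s : ℕ) (hs : 1 ≤ s) : ∃ C : ℝ, 1 ≤ C ∧ ∀ η : ℝ, 0 < η → ∃ K₀ : ℝ, 17 ≤ K₀ ∧ ∀ A B : ℤ, 4 * A ^ 3 + 27 * B ^ 2 ≠ 0 →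
    ∀ x : ℕ → ℝ, IsAngles A B x → ∀ (M : ℤ) (H : ℕ), (((Ico M (M + H)).filter (fun D => ¬ ∀ X : ℕ → ℝ,
      IsAngles (A * D ^ 2) (B * D ^ 3) X → ∀ K : ℕ, K₀ + C * ell A B ^ 2 ≤ K → ∀ t : ℕ, 1 ≤ t → (K : ℝ) ^ (C * t) ≤ H →
      ∀ a b : Fin s → ℝ, |(cnt s K (fun i k => X (k + i)) a b : ℝ) -
        (1 / 2 ^ s) * ∑ σ : Finset (Fin s), (cnt s K (fun i k => if i ∈ σ then 1 - x (k + i) else x (k + i)) a b : ℝ)| ≤
          C * (√(t * K) * Real.log K ^ (1 / (t : ℝ))))).card : ℝ) ≤ η * H := by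
  obtain ⟨c, hc0, hc⟩ := lev2 s hs
  have hGa : 0 < Ga (s + 1) := Ga_pos _ (Nat.succ_pos _)
  have hs' : (1 : ℝ) ≤ s := by exact_mod_cast hs
  have h2s : (1 : ℝ) ≤ 2 ^ s := one_le_pow₀ (by norm_num)
  set C₁ : ℝ := 2 ^ s * (2 ^ s * (30 * Ga (s + 1)) + (1 + 2 ^ s) * s * 4) with hC₁
  have hC₁0 : 0 ≤ C₁ := by rw [hC₁]; positivity
  set C : ℝ := 80 * s + C₁ with hC
  have hC1 : 1 ≤ C := by rw [hC]; linarith
  refine ⟨C, hC1, ?_⟩
  intro η hη
  obtain ⟨L₀, hL₀⟩ := exists_nat_ge (max ((4 * c + 800) / η) (s + 3))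
  have hL₀1 : (4 * c + 800) / η ≤ L₀ := (le_max_left _ _).trans hL₀
  have hL₀2 : s + 3 ≤ L₀ := by
    have : ((s + 3 : ℕ) : ℝ) ≤ L₀ := by push_cast; exact (le_max_right _ _).trans hL₀
    exact_mod_cast this
  refine ⟨2 ^ L₀ + 17, by have : (0 : ℝ) < 2 ^ L₀ := by positivity
                          linarith, ?_⟩
  intro A B hAB x hx M H
  -- the exceptional sets
  have hex : ∀ v : ℕ × ℕ, ∃ E : Finset ℤ, (s + 3 ≤ v.1 → (E.card : ℝ) ≤ H * (c * (1 / 2) ^ v.2 * ((v.1 : ℝ) ^ 2)⁻¹)) ∧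
      (s + 3 ≤ v.1 → 1 ≤ v.2 → 2 ^ (20 * v.1 * (v.2 + 1) * s) ≤ H → ∀ D ∈ Ico M (M + H), D ∉ E →
        ∀ σ T : Finset (Fin s), T.Nonempty → ∀ w : Fin s → ℝ, ∀ K ≤ 2 ^ v.1,
        |∑ k ∈ range K, cc x σ w k * win (T.map Fin.valEmbedding) D k| ≤
          (Real.exp 1 * (v.1 : ℝ) ^ (1 / (v.2 : ℝ))) * √(2 * Real.exp 1 * ((v.2 + 1 : ℕ) : ℝ)) * √(2 ^ v.1) * Ga (s + 1)) := by
    rintro ⟨L, t⟩
    by_cases h : s + 3 ≤ L ∧ 1 ≤ t ∧ 2 ^ (20 * L * (t + 1) * s) ≤ H
    · obtain ⟨E, hE1, hE2⟩ := hc x L t h.1 h.2.1 M H h.2.2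
      exact ⟨E, fun _ => hE1, fun _ _ _ => hE2⟩
    · refine ⟨∅, fun _ => ?_, fun h1 h2 h3 => absurd ⟨h1, h2, h3⟩ h⟩
      rw [card_empty, Nat.cast_zero]
      positivity
  choose E hE1 hE2 using hex
  set F : ℕ → Finset ℤ := fun L => if 2 ^ (L + 1) ≤ H then
    (Ico M (M + (H : ℤ))).filter (fun D => √((2 : ℝ) ^ L) < om (2 ^ L + s) D) else ∅ with hF
  have hF1 : ∀ L, s + 3 ≤ L → ((F L).card : ℝ) ≤ H * (400 * ((L : ℝ) ^ 2)⁻¹) := by
    intro L hL
    rw [hF]
    by_cases h : 2 ^ (L + 1) ≤ H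
    · simp only [h, if_true]
      exact lev3 s L hL M H h
    · simp only [h, if_false, card_empty, Nat.cast_zero]
      positivity
  set Bd := (Ioo L₀ (H + 1)).biUnion F ∪ ((Ioo L₀ (H + 1)) ×ˢ (range (H + 1))).biUnion E with hBd
  have hsub : (Ico M (M + (H : ℤ))).filter (fun D => ¬ ∀ X : ℕ → ℝ,
      IsAngles (A * D ^ 2) (B * D ^ 3) X → ∀ K : ℕ, 2 ^ L₀ + 17 + C * ell A B ^ 2 ≤ K → ∀ t : ℕ, 1 ≤ t → (K : ℝ) ^ (C * t) ≤ H →
      ∀ a b : Fin s → ℝ, |(cnt s K (fun i k => X (k + i)) a b : ℝ) -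
        (1 / 2 ^ s) * ∑ σ : Finset (Fin s), (cnt s K (fun i k => if i ∈ σ then 1 - x (k + i) else x (k + i)) a b : ℝ)| ≤
          C * (√(t * K) * Real.log K ^ (1 / (t : ℝ)))) ⊆ Bd := by
    intro D hD
    obtain ⟨hDI, hDbad⟩ := mem_filter.1 hD
    by_contra hDE
    rw [hBd, mem_union, not_or] at hDE
    apply hDbad
    intro X hX K hK t ht hKH a b
    have hell := ell_ge hAB
    have hell2 : 1 ≤ ell A B ^ 2 := by nlinarith
    have h2L₀ : (0 : ℝ) < 2 ^ L₀ := by positivity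
    have hK16 : 16 < K := by
      have : (16 : ℝ) < K := by nlinarith
      exact_mod_cast this
    have hKr : (16 : ℝ) < K := by exact_mod_cast hK16
    have htr : (1 : ℝ) ≤ t := by exact_mod_cast ht
    obtain ⟨L, hL4, hKL, hL2K, hLlog, _, hlogK⟩ := dyadic hK16
    have hLL₀ : L₀ < L := by
      by_contra hcon
      push Not at hcon
      have h1 : (2 : ℝ) ^ L ≤ 2 ^ L₀ := pow_le_pow_right₀ (by norm_num) hcon
      have h2 : (K : ℝ) ≤ 2 ^ L := by exact_mod_cast hKL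
      nlinarith
    have hLr : (4 : ℝ) ≤ L := by exact_mod_cast hL4
    have h2L : (2 : ℝ) ^ L ≤ 2 * K := by exact_mod_cast hL2K
    have hHL : 2 ^ (20 * L * (t + 1) * s) ≤ H := by
      have h1 : ((2 : ℝ)) ^ (20 * L * (t + 1) * s) ≤ H := by
        refine le_trans ?_ hKH
        have h2 : (2 : ℝ) ^ (20 * L * (t + 1) * s) = (2 ^ L) ^ (20 * (t + 1) * s) := by
          rw [← pow_mul]; congr 1; ring
        rw [h2]
        have h3 : (2 : ℝ) ^ L ≤ (K : ℝ) ^ 2 := h2L.trans (by nlinarith)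
        calc ((2 : ℝ) ^ L) ^ (20 * (t + 1) * s) ≤ ((K : ℝ) ^ 2) ^ (20 * (t + 1) * s) := pow_le_pow_left₀ (by positivity) h3 _
          _ = (K : ℝ) ^ ((2 * (20 * (t + 1) * s) : ℕ) : ℝ) := by rw [← pow_mul, Real.rpow_natCast]
          _ ≤ (K : ℝ) ^ (C * t) := by
              apply Real.rpow_le_rpow_of_exponent_le (by linarith)
              push_cast
              rw [hC]
              have h4 : 2 * (20 * ((t : ℝ) + 1) * s) ≤ 80 * s * t := by nlinarith
              nlinarith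
      exact_mod_cast h1
    have hpos : 1 ≤ (t + 1) * s := Nat.mul_pos (by omega) hs
    have hLLe : L + 1 ≤ 20 * L * (t + 1) * s := by
      calc L + 1 ≤ 20 * L * 1 := by omega
        _ ≤ 20 * L * ((t + 1) * s) := Nat.mul_le_mul_left _ hpos
        _ = _ := by ring
    have hHL1 : 2 ^ (L + 1) ≤ H := le_trans (Nat.pow_le_pow_right (by norm_num) hLLe) hHL
    have hLH : L < H + 1 := by
      have h1 : L + 1 < 2 ^ (L + 1) := Nat.lt_two_pow_self
      omega
    have htH : t < H + 1 := by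
      have h1 : t < 2 ^ t := Nat.lt_two_pow_self
      have h2 : 2 ^ t ≤ 2 ^ (20 * L * (t + 1) * s) := by
        apply Nat.pow_le_pow_right (by norm_num)
        calc t ≤ 1 * (t + 1) * 1 := by omega
          _ ≤ 20 * L * (t + 1) * s := Nat.mul_le_mul (Nat.mul_le_mul_right _ (by omega)) hs
      omega
    have hLmem : L ∈ Ioo L₀ (H + 1) := mem_Ioo.2 ⟨hLL₀, hLH⟩
    have hom : (om (2 ^ L + s) D : ℝ) ≤ √(2 ^ L) := by
      by_contra hcon
      push Not at hcon
      apply hDE.1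
      refine mem_biUnion.2 ⟨L, hLmem, ?_⟩
      rw [hF]
      simp only [hHL1, if_true]
      exact mem_filter.2 ⟨hDI, hcon⟩
    have hlev := hE2 (L, t) (show s + 3 ≤ L by omega) ht hHL D hDI
      (fun h => hDE.2 (mem_biUnion.2 ⟨(L, t), mem_product.2 ⟨hLmem, mem_range.2 htH⟩, h⟩))
    -- the bound for the anchored boxes
    set W : ℝ := √(t * K) * Real.log K ^ (1 / (t : ℝ)) with hW
    have hW0 : 0 ≤ W := by rw [hW]; positivity
    have hlt : 1 ≤ Real.log K ^ (1 / (t : ℝ)) := Real.one_le_rpow hlogK (by positivity)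
    have hsK : √(K : ℝ) ≤ W := by
      have h1 : √(K : ℝ) ≤ √(t * K) := Real.sqrt_le_sqrt (by nlinarith)
      rw [hW]
      have := Real.sqrt_nonneg ((t : ℝ) * K)
      nlinarith
    set b₀ : ℝ := (Real.exp 1 * (L : ℝ) ^ (1 / (t : ℝ))) * √(2 * Real.exp 1 * ((t + 1 : ℕ) : ℝ)) * √(2 ^ L) * Ga (s + 1) with hb₀
    have hb₀0 : 0 ≤ b₀ := by rw [hb₀]; positivity
    have he1 := Real.exp_one_lt_d9
    have he0 := Real.exp_pos 1
    have hb₀W : b₀ ≤ 30 * Ga (s + 1) * W := by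
      have h1 : √(2 * Real.exp 1 * ((t + 1 : ℕ) : ℝ)) * √((2 : ℝ) ^ L) ≤ 5 * √(t * K) := by
        rw [← Real.sqrt_mul (by positivity)]
        have h2 : 2 * Real.exp 1 * ((t + 1 : ℕ) : ℝ) * 2 ^ L ≤ 5 ^ 2 * (t * K) := by
          have h3 : ((t + 1 : ℕ) : ℝ) ≤ 2 * t := by push_cast; linarith
          calc 2 * Real.exp 1 * ((t + 1 : ℕ) : ℝ) * 2 ^ L ≤ 2 * 3 * (2 * t) * (2 * K) := by
                apply mul_le_mul _ h2L (by positivity) (by positivity)
                apply mul_le_mul (by linarith) h3 (by positivity) (by norm_num)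
            _ = 24 * (t * K) := by ring
            _ ≤ 5 ^ 2 * (t * K) := by
                apply mul_le_mul_of_nonneg_right (by norm_num) (by positivity)
        refine (Real.sqrt_le_sqrt h2).trans (le_of_eq ?_)
        rw [Real.sqrt_mul (by norm_num), Real.sqrt_sq (by norm_num)]
      have h2 : (L : ℝ) ^ (1 / (t : ℝ)) ≤ 2 * Real.log K ^ (1 / (t : ℝ)) := by
        calc (L : ℝ) ^ (1 / (t : ℝ)) ≤ (2 * Real.log K) ^ (1 / (t : ℝ)) :=
              Real.rpow_le_rpow (by linarith) hLlog (by positivity)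
          _ = 2 ^ (1 / (t : ℝ)) * Real.log K ^ (1 / (t : ℝ)) := Real.mul_rpow (by norm_num) (by linarith)
          _ ≤ 2 * Real.log K ^ (1 / (t : ℝ)) := by
              apply mul_le_mul_of_nonneg_right _ (by positivity)
              calc (2 : ℝ) ^ (1 / (t : ℝ)) ≤ 2 ^ (1 : ℝ) := by
                    apply Real.rpow_le_rpow_of_exponent_le (by norm_num)
                    rw [div_le_one (by linarith)]
                    exact htr
                _ = 2 := Real.rpow_one 2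
      calc b₀ = Real.exp 1 * (L : ℝ) ^ (1 / (t : ℝ)) * (√(2 * Real.exp 1 * ((t + 1 : ℕ) : ℝ)) * √(2 ^ L)) * Ga (s + 1) := by
            rw [hb₀]; ring
        _ ≤ 3 * (2 * Real.log K ^ (1 / (t : ℝ))) * (5 * √(t * K)) * Ga (s + 1) := by
            apply mul_le_mul_of_nonneg_right _ hGa.le
            apply mul_le_mul _ h1 (by positivity) (by positivity)
            exact mul_le_mul (by linarith) h2 (by positivity) (by norm_num)
        _ = _ := by rw [hW]; ring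
    have hbad : (bad A B (K + s) : ℝ) ≤ 2 * W := by
      refine (bad_le hAB (K + s)).trans ?_
      have h1 : ell A B ≤ √(K : ℝ) := by
        apply Real.le_sqrt_of_sq_le
        nlinarith
      linarith
    have hom' : (om (K + s) D : ℝ) ≤ 2 * W := by
      have h1 : om (K + s) D ≤ om (2 ^ L + s) D := by
        unfold om
        apply card_le_card
        apply filter_subset_filter
        intro k hk
        have := mem_range.1 hk
        exact mem_range.2 (by omega)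
      have h2 : (om (K + s) D : ℝ) ≤ om (2 ^ L + s) D := by exact_mod_cast h1
      have h3 : √((2 : ℝ) ^ L) ≤ 2 * √(K : ℝ) := by
        have : √((2 : ℝ) ^ L) ≤ √(2 ^ 2 * K) := Real.sqrt_le_sqrt (by linarith)
        rw [Real.sqrt_mul (by norm_num), Real.sqrt_sq (by norm_num)] at this
        exact this
      linarith
    have hanch : ∀ w : Fin s → ℝ, |∑ k ∈ range K, cc X ∅ w k - (1 / 2 ^ s) * ∑ σ : Finset (Fin s), ∑ k ∈ range K, cc x σ w k| ≤
        (2 ^ s * (30 * Ga (s + 1)) + (1 + 2 ^ s) * s * 4) * W := by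
      intro w
      refine (expand hx hX w K b₀ hb₀0 (fun σ T hT => hlev σ T hT w K hKL)).trans ?_
      have h1 : 2 ^ s * b₀ ≤ 2 ^ s * (30 * Ga (s + 1) * W) := mul_le_mul_of_nonneg_left hb₀W (by positivity)
      have h2 : (1 + 2 ^ s) * s * ((bad A B (K + s) : ℝ) + om (K + s) D) ≤ (1 + 2 ^ s) * s * (4 * W) :=
        mul_le_mul_of_nonneg_left (by linarith) (by positivity)
      linarith
    have hall := all_boxes K x X _ (by positivity) hanch a b
    have e1 : (cnt s K (fun i k => X (k + i)) a b : ℝ) = cnt s K (yy X ∅) a b := by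
      congr 2
    have e2 : ∀ σ : Finset (Fin s), (cnt s K (fun i k => if i ∈ σ then 1 - x (k + i) else x (k + i)) a b : ℝ) = cnt s K (yy x σ) a b := by
      intro σ
      congr 2
    rw [e1]
    simp only [e2]
    refine hall.trans ?_
    rw [← mul_assoc]
    apply mul_le_mul_of_nonneg_right _ hW0
    rw [hC, hC₁]
    linarith
  -- the count
  have hH0 : (0 : ℝ) ≤ H := Nat.cast_nonneg H
  have hLs : ∑ L ∈ Ioo L₀ (H + 1), ((L : ℝ) ^ 2)⁻¹ ≤ 2 / (L₀ + 1) := sum_Ioo_inv_sq_le L₀ (H + 1)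
  have h1 : (((Ioo L₀ (H + 1)).biUnion F).card : ℝ) ≤ H * (400 * (2 / (L₀ + 1))) := by
    have h2 : (((Ioo L₀ (H + 1)).biUnion F).card : ℝ) ≤ ∑ L ∈ Ioo L₀ (H + 1), ((F L).card : ℝ) := by exact_mod_cast card_biUnion_le
    refine h2.trans ?_
    have h3 : ∑ L ∈ Ioo L₀ (H + 1), ((F L).card : ℝ) ≤ ∑ L ∈ Ioo L₀ (H + 1), (H : ℝ) * (400 * ((L : ℝ) ^ 2)⁻¹) := by
      refine sum_le_sum fun L hL => ?_
      have h4 := mem_Ioo.1 hL
      exact hF1 L (by omega)
    refine h3.trans ?_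
    rw [← mul_sum, ← mul_sum]
    exact mul_le_mul_of_nonneg_left (mul_le_mul_of_nonneg_left hLs (by norm_num)) hH0
  have h2 : ((((Ioo L₀ (H + 1)) ×ˢ (range (H + 1))).biUnion E).card : ℝ) ≤ H * (c * 2 * (2 / (L₀ + 1))) := by
    have h3 : ((((Ioo L₀ (H + 1)) ×ˢ (range (H + 1))).biUnion E).card : ℝ) ≤
        ∑ v ∈ (Ioo L₀ (H + 1)) ×ˢ (range (H + 1)), ((E v).card : ℝ) := by exact_mod_cast card_biUnion_le
    refine h3.trans ?_
    have h4 : ∑ v ∈ (Ioo L₀ (H + 1)) ×ˢ (range (H + 1)), ((E v).card : ℝ) ≤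
        ∑ v ∈ (Ioo L₀ (H + 1)) ×ˢ (range (H + 1)), (H : ℝ) * (c * (1 / 2) ^ v.2 * ((v.1 : ℝ) ^ 2)⁻¹) := by
      refine sum_le_sum fun v hv => ?_
      have h5 := mem_Ioo.1 (mem_product.1 hv).1
      exact hE1 v (by omega)
    refine h4.trans ?_
    rw [← mul_sum, sum_product]
    apply mul_le_mul_of_nonneg_left _ hH0
    have h5 : ∀ L ∈ Ioo L₀ (H + 1), ∑ t ∈ range (H + 1), c * (1 / 2) ^ t * ((L : ℝ) ^ 2)⁻¹ ≤ c * 2 * ((L : ℝ) ^ 2)⁻¹ := by
      intro L _
      rw [← sum_mul, ← mul_sum]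
      apply mul_le_mul_of_nonneg_right _ (by positivity)
      exact mul_le_mul_of_nonneg_left (sum_geometric_two_le _) hc0.le
    refine (sum_le_sum h5).trans ?_
    rw [← mul_sum]
    exact mul_le_mul_of_nonneg_left hLs (by positivity)
  have h3 : (4 * c + 800) / ((L₀ : ℝ) + 1) ≤ η := by
    rw [div_le_iff₀ (by positivity)]
    rw [div_le_iff₀ hη] at hL₀1
    nlinarith
  have h4 : (Bd.card : ℝ) ≤ H * (400 * (2 / (L₀ + 1))) + H * (c * 2 * (2 / (L₀ + 1))) := by
    have : (Bd.card : ℝ) ≤ (((Ioo L₀ (H + 1)).biUnion F).card : ℝ) + ((((Ioo L₀ (H + 1)) ×ˢ (range (H + 1))).biUnion E).card : ℝ) := by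
      exact_mod_cast card_union_le _ _
    linarith
  have h5 : (H : ℝ) * (400 * (2 / (L₀ + 1))) + H * (c * 2 * (2 / (L₀ + 1))) = H * ((4 * c + 800) / ((L₀ : ℝ) + 1)) := by
    field_simp
    ring
  rw [h5] at h4
  have h6 := card_le_card hsub
  have h7 := mul_le_mul_of_nonneg_left h3 hH0
  refine le_trans (by exact_mod_cast h6) (h4.trans (h7.trans (le_of_eq (mul_comm _ _))))

open Classical in
/-- **The same with the iterated logarithm.** -/
theorem upper_log (s : ℕ) (hs : 1 ≤ s) : ∃ C : ℝ, ∀ η : ℝ, 0 < η → ∃ K₀ : ℝ, ∀ A B : ℤ, 4 * A ^ 3 + 27 * B ^ 2 ≠ 0 →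
    ∀ x : ℕ → ℝ, IsAngles A B x → ∀ (M : ℤ) (H : ℕ), (((Ico M (M + H)).filter (fun D => ¬ ∀ X : ℕ → ℝ,
      IsAngles (A * D ^ 2) (B * D ^ 3) X → ∀ K : ℕ, K₀ + C * ell A B ^ 2 ≤ K → ∀ a b : Fin s → ℝ,
      (∀ t : ℕ, 1 ≤ t → (K : ℝ) ^ (C * t) ≤ H → |(cnt s K (fun i k => X (k + i)) a b : ℝ) -
        (1 / 2 ^ s) * ∑ σ : Finset (Fin s), (cnt s K (fun i k => if i ∈ σ then 1 - x (k + i) else x (k + i)) a b : ℝ)| ≤
          C * (√(t * K) * Real.log K ^ (1 / (t : ℝ)))) ∧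
      ((K : ℝ) ^ (C * Real.log (Real.log K)) ≤ H → |(cnt s K (fun i k => X (k + i)) a b : ℝ) -
        (1 / 2 ^ s) * ∑ σ : Finset (Fin s), (cnt s K (fun i k => if i ∈ σ then 1 - x (k + i) else x (k + i)) a b : ℝ)| ≤
          C * √(K * Real.log (Real.log K))))).card : ℝ) ≤ η * H := by
  obtain ⟨C, hC1, hC⟩ := upper s hs
  refine ⟨6 * C, ?_⟩
  intro η hη
  obtain ⟨K₀, hK₀, h⟩ := hC η hη
  refine ⟨K₀, ?_⟩
  intro A B hAB x hx M H
  refine le_trans ?_ (h A B hAB x hx M H)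
  have hsub : ∀ {P Q : ℤ → Prop}, (∀ D, P D → Q D) → (((Ico M (M + (H : ℤ))).filter (fun D => ¬ Q D)).card : ℝ) ≤
      ((Ico M (M + (H : ℤ))).filter (fun D => ¬ P D)).card := by
    intro P Q hPQ
    have : (Ico M (M + (H : ℤ))).filter (fun D => ¬ Q D) ⊆ (Ico M (M + (H : ℤ))).filter (fun D => ¬ P D) := by
      intro D hD
      have h1 := mem_filter.1 hD
      exact mem_filter.2 ⟨h1.1, fun h2 => h1.2 (hPQ D h2)⟩
    exact_mod_cast card_le_card this
  apply hsub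
  intro D hD X hX K hK a b
  have hell := ell_ge hAB
  have hell2 : 1 ≤ ell A B ^ 2 := by nlinarith
  have hK' : K₀ + C * ell A B ^ 2 ≤ K := by nlinarith
  have hK16 : 16 < K := by
    have : (16 : ℝ) < K := by nlinarith
    exact_mod_cast this
  have hKr : (16 : ℝ) < K := by exact_mod_cast hK16
  obtain ⟨L, _, _, _, _, hll, hlogK⟩ := dyadic hK16
  have hgen : ∀ t : ℕ, 1 ≤ t → (K : ℝ) ^ (C * t) ≤ H → |(cnt s K (fun i k => X (k + i)) a b : ℝ) -
        (1 / 2 ^ s) * ∑ σ : Finset (Fin s), (cnt s K (fun i k => if i ∈ σ then 1 - x (k + i) else x (k + i)) a b : ℝ)| ≤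
          C * (√(t * K) * Real.log K ^ (1 / (t : ℝ))) := fun t ht hKH => hD X hX K hK' t ht hKH a b
  constructor
  · intro t ht hKH
    have htr : (1 : ℝ) ≤ t := by exact_mod_cast ht
    have h1 : (K : ℝ) ^ (C * t) ≤ H := by
      refine le_trans (Real.rpow_le_rpow_of_exponent_le (by linarith) ?_) hKH
      nlinarith
    refine (hgen t ht h1).trans ?_
    apply mul_le_mul_of_nonneg_right (by linarith) (by positivity)
  · intro hKH
    set t := ⌈Real.log (Real.log K)⌉₊ with ht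
    have ht1 : 1 ≤ t := Nat.one_le_iff_ne_zero.2 (by
      intro h0
      have := Nat.le_ceil (Real.log (Real.log K))
      rw [← ht, h0] at this
      push_cast at this
      linarith)
    have ht2 : Real.log (Real.log K) ≤ t := Nat.le_ceil _
    have ht3 : (t : ℝ) ≤ 2 * Real.log (Real.log K) := by
      have := Nat.ceil_lt_add_one (show 0 ≤ Real.log (Real.log K) by linarith)
      linarith
    have htr : (1 : ℝ) ≤ t := by exact_mod_cast ht1
    have h1 : (K : ℝ) ^ (C * t) ≤ H := by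
      refine le_trans (Real.rpow_le_rpow_of_exponent_le (by linarith) ?_) hKH
      nlinarith
    refine (hgen t ht1 h1).trans ?_
    have h2 : Real.log K ^ (1 / (t : ℝ)) ≤ Real.exp 1 := by
      rw [Real.rpow_def_of_pos (by linarith)]
      apply Real.exp_le_exp.2
      rw [mul_one_div, div_le_one (by linarith)]
      exact ht2
    have h3 : √(t * K) ≤ 2 * √(K * Real.log (Real.log K)) := by
      have h4 : √((t : ℝ) * K) ≤ √(2 ^ 2 * (K * Real.log (Real.log K))) := by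
        apply Real.sqrt_le_sqrt
        nlinarith
      have h4' : √(2 ^ 2 * (K * Real.log (Real.log K))) = 2 * √(K * Real.log (Real.log K)) := by
        rw [Real.sqrt_mul (by norm_num), Real.sqrt_sq (by norm_num)]
      rw [h4'] at h4
      exact h4
    have h5 := Real.exp_one_lt_d9
    have h6 : √(t * K) * Real.log K ^ (1 / (t : ℝ)) ≤ 2 * √(K * Real.log (Real.log K)) * 3 := by
      apply mul_le_mul h3 (by linarith) (by positivity) (by positivity)
    calc C * (√(t * K) * Real.log K ^ (1 / (t : ℝ))) ≤ C * (2 * √(K * Real.log (Real.log K)) * 3) :=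
          mul_le_mul_of_nonneg_left h6 (by linarith)
      _ = 6 * C * √(K * Real.log (Real.log K)) := by ring

end

end Pool.Agent.J4.H33.UL
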